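import Pool.Agent.Y60.DCF.Defs

/-!
# Composition factors: alternating groups, groups of order `p`, and classical groups in
characteristic `p`

* `FactorA p T`: the simple groups which are allowed as composition factors of kernels.
* `Step p π`: the epimorphisms of groups which are allowed.
-/

set_option autoImplicit false

open Pool.Agent.Y60.DC (CompIn)
open Pool.Agent.Y60.DCF (Factor)

namespace Pool.Agent.K7.H53.MA

/-- `T` is isomorphic to an alternating group `A_n` with `n ≥ 5`, `n ≠ 6`. -/
def IsAlt (T : Type) [Group T] : Prop :=
  ∃ n : ℕ, 5 ≤ n ∧ n ≠ 6 ∧ Nonempty (T ≃* alternatingGroup (Fin n))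

/-- The composition factors which are allowed: the alternating groups `A_n`, `n ≥ 5`, `n ≠ 6`, and
the groups `T` with `Factor p T` (file `Pool/Agent/Y60/DCF/Defs.lean`): groups of order `p` and
certain simple groups `PSL_n(p^k)`, `PSp_2n(p^k)` and more general classical groups in
characteristic `p`. -/
def FactorA (p : ℕ) [Fact p.Prime] (T : Type) [Group T] : Prop :=
  IsAlt T ∨ Factor p T

/-- `π : W' → W` is surjective with a finite kernel, and either all composition factors of the kernel
are allowed (`π` may be split or not), or `π` has a homomorphic section and an abelian kernel. -/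
def Step (p : ℕ) [Fact p.Prime] {W W' : Type} [Group W] [Group W'] (π : W' →* W) : Prop :=
  Function.Surjective π ∧ Finite π.ker ∧
    (CompIn (FactorA p) π.ker ∨
      (∃ s : W →* W', ∀ w, π (s w) = w) ∧ ∀ x y, π x = 1 → π y = 1 → x * y = y * x)

end Pool.Agent.K7.H53.MA
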