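import Pool.Agent.K7.H53.MA.Loc
import Pool.Agent.H302R6.AutB

/-!
# Automorphisms of alternating groups; split embedding problems
-/

set_option autoImplicit false
set_option linter.unusedSectionVars false
set_option linter.unusedVariables false

open Equiv

namespace Pool.Agent.K7.H53.MA

open Pool.Agent.H391R2.T4 (RegSol)
open Pool.Agent.Y60.DC (exists_univ LocP)

theorem aut_perm (n : ℕ) (h5 : 5 ≤ n) (h6 : n ≠ 6) (β : MulAut (alternatingGroup (Fin n))) :
    ∃ σ : Perm (Fin n), ∀ g : alternatingGroup (Fin n),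
      ((β g : alternatingGroup (Fin n)) : Perm (Fin n)) = σ * g * σ⁻¹ := by
  by_cases h7 : 7 ≤ n
  · exact Pool.Agent.H302R6.aut_alt (by rwa [Fintype.card_fin]) β
  · have hn : n = 5 := by omega
    refine Pool.Agent.H302R6.exists_perm (by rwa [Fintype.card_fin]) β fun g hg => ?_
    have ho : orderOf ((β g : alternatingGroup (Fin n)) : Perm (Fin n)) = 3 := by
      rw [Subgroup.orderOf_coe, MulEquiv.orderOf_eq, ← Subgroup.orderOf_coe]
      exact hg.orderOf
    obtain ⟨k, hk⟩ := Perm.cycleType_prime_order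
      (σ := ((β g : alternatingGroup (Fin n)) : Perm (Fin n))) (by rw [ho]; exact Nat.prime_three)
    rw [ho] at hk
    rcases Nat.eq_zero_or_pos k with h0 | h0
    · rw [h0] at hk
      exact hk
    exfalso
    have h1 := Perm.sum_cycleType ((β g : alternatingGroup (Fin n)) : Perm (Fin n))
    rw [hk, Multiset.sum_replicate, smul_eq_mul] at h1
    have h2 := Finset.card_le_univ ((β g : alternatingGroup (Fin n)) : Perm (Fin n)).support
    rw [Fintype.card_fin] at h2
    omega

theorem cent_one (n : ℕ) (h4 : 4 ≤ n) (g : Perm (Fin n))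
    (h : ∀ k ∈ alternatingGroup (Fin n), g * k = k * g) : g = 1 := by
  by_contra hg
  obtain ⟨a, ha⟩ : ∃ a, g a ≠ a := by
    by_contra h1
    push Not at h1
    exact hg (Equiv.ext h1)
  have : 2 ≤ (({a, g a} : Finset (Fin n))ᶜ).card := by
    rw [← Nat.add_le_add_iff_left, Finset.card_add_card_compl, Fintype.card_fin,
      Finset.card_pair ha.symm]
    exact h4
  rw [← Nat.lt_iff_add_one_le, Finset.one_lt_card_iff] at this
  obtain ⟨c, d, hc, hd, hcd⟩ := this
  simp only [Finset.compl_insert, Finset.mem_erase, ← ne_eq, Finset.mem_compl,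
    Finset.mem_singleton] at hc hd
  let k := swap (g a) d * swap (g a) c
  have hka : k a = a := by
    simp only [Perm.mul_apply, k]
    rw [swap_apply_of_ne_of_ne (x := a) ha.symm hc.1.symm]
    rw [swap_apply_of_ne_of_ne ha.symm hd.1.symm]
  have hkga : k (g a) = c := by
    simp only [Perm.mul_apply, swap_apply_left, k]
    rw [swap_apply_of_ne_of_ne hc.2 hcd]
  have hk : k ∈ alternatingGroup (Fin n) := by
    rw [Perm.mem_alternatingGroup]
    simp [k, hc.2.symm, hd.2.symm, Perm.sign_swap]
  have h1 := congrArg (fun f : Perm (Fin n) => f a) (h k hk)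
  simp only [Perm.mul_apply] at h1
  rw [hka, hkga] at h1
  exact hc.2 h1.symm

/-- `Aut(A_n) = S_n`. -/
noncomputable def autEquiv (n : ℕ) (h5 : 5 ≤ n) (h6 : n ≠ 6) :
    Perm (Fin n) ≃* MulAut (alternatingGroup (Fin n)) :=
  MulEquiv.ofBijective (MulAut.conjNormal : Perm (Fin n) →* MulAut (alternatingGroup (Fin n))) (by
    constructor
    · rw [injective_iff_map_eq_one]
      intro g hg
      apply cent_one n (by omega)
      intro k hk
      have h1 := congrArg Subtype.val (DFunLike.congr_fun hg (⟨k, hk⟩ : alternatingGroup (Fin n)))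
      rw [MulAut.conjNormal_apply] at h1
      change g * k * g⁻¹ = k at h1
      rw [mul_inv_eq_iff_eq_mul] at h1
      exact h1
    · intro β
      obtain ⟨σ, hσ⟩ := aut_perm n h5 h6 β
      refine ⟨σ, MulEquiv.ext fun g => Subtype.ext ?_⟩
      rw [MulAut.conjNormal_apply, hσ])

theorem autEquiv_apply (n : ℕ) (h5 : 5 ≤ n) (h6 : n ≠ 6) (s : Perm (Fin n))
    (g : alternatingGroup (Fin n)) :
    ((autEquiv n h5 h6 s g : alternatingGroup (Fin n)) : Perm (Fin n)) = s * g * s⁻¹ :=
  MulAut.conjNormal_apply _ _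

theorem isCompl_alt (n : ℕ) (h5 : 5 ≤ n) :
    ∃ T : Subgroup (Perm (Fin n)), IsCompl T (alternatingGroup (Fin n)) := by
  let s : Perm (Fin n) := swap ⟨0, by omega⟩ ⟨1, by omega⟩
  have hs : Perm.sign s = -1 := Perm.sign_swap (by simp [Fin.ext_iff])
  have hss : s * s = 1 := swap_mul_self _ _
  refine ⟨Subgroup.zpowers s, ?_, ?_⟩
  · rw [Subgroup.disjoint_def]
    intro g hg hA
    obtain ⟨k, rfl⟩ := Subgroup.mem_zpowers_iff.1 hg
    rw [Perm.mem_alternatingGroup, map_zpow, hs] at hA
    rcases Int.even_or_odd k with ⟨m, rfl⟩ | ⟨m, rfl⟩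
    · rw [← two_mul, zpow_mul, zpow_two, hss, one_zpow]
    · exfalso
      rw [zpow_add, zpow_mul, zpow_one, zpow_two] at hA
      simp at hA
  · rw [codisjoint_iff, eq_top_iff]
    intro g _
    rcases Int.units_eq_one_or (Perm.sign g) with h | h
    · exact Subgroup.mem_sup_right (Perm.mem_alternatingGroup.2 h)
    · have h1 : g = s * (s * g) := by rw [← mul_assoc, hss, one_mul]
      rw [h1]
      refine Subgroup.mul_mem_sup (Subgroup.mem_zpowers s) ?_
      rw [Perm.mem_alternatingGroup, Perm.sign_mul, hs, h]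
      rfl

theorem compl_alt (n : ℕ) (h5 : 5 ≤ n) (h6 : n ≠ 6) :
    ∃ T : Subgroup (MulAut (alternatingGroup (Fin n))),
      IsCompl T (MulAut.conj : alternatingGroup (Fin n) →* _).range := by
  obtain ⟨T, hT⟩ := isCompl_alt n h5
  let E := autEquiv n h5 h6
  refine ⟨T.map (E : Perm (Fin n) →* _), ?_⟩
  have h1 : (MulAut.conj : alternatingGroup (Fin n) →* _).range =
      (alternatingGroup (Fin n)).map (E : Perm (Fin n) →* _) := by
    ext β
    constructor
    · rintro ⟨g, rfl⟩
      refine ⟨g, g.2, ?_⟩
      apply MulEquiv.ext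
      intro k
      apply Subtype.ext
      exact autEquiv_apply n h5 h6 g k
    · rintro ⟨g, hg, rfl⟩
      refine ⟨⟨g, hg⟩, ?_⟩
      apply MulEquiv.ext
      intro k
      apply Subtype.ext
      exact (autEquiv_apply n h5 h6 g k).symm
  rw [h1]
  exact (E.mapSubgroup : Subgroup (Perm (Fin n)) ≃o _).isCompl hT

/-- The facts which are needed in characteristic `p`. -/
def NiceP (p : ℕ) : Prop :=
  ∀ (J U : Type) [Fintype J] [DecidableEq J] [Field U] [IsAlgClosed U] [CharP U p],
    Odd (Fintype.card J) → Nice J U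

theorem niceP_of_ne (p : ℕ) [hp : Fact p.Prime] (h2 : p ≠ 2) : NiceP p := by
  intro J U _ _ _ _ _ hodd
  refine nice_of_two (fun h => h2 ?_) hodd
  have h3 : ((2 : ℕ) : U) = 0 := by exact_mod_cast h
  rw [CharP.cast_eq_zero_iff U p] at h3
  exact (Nat.prime_dvd_prime_iff_eq hp.out Nat.prime_two).1 h3

theorem locP_alt (p : ℕ) [Fact p.Prime] (hNP : NiceP p) (n : ℕ) (h5 : 5 ≤ n) (h6 : n ≠ 6) :
    LocP p (alternatingGroup (Fin n)) := by
  intro K L _ _ _ _ _ _ _ β
  classical
  let β' : (L ≃ₐ[K] L) →* Perm (Fin n) := ((autEquiv n h5 h6).symm : _ →* Perm (Fin n)).comp β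
  have hβ : ∀ γ g, ((β γ g : alternatingGroup (Fin n)) : Perm (Fin n)) =
      β' γ * g * (β' γ)⁻¹ := by
    intro γ g
    rw [← autEquiv_apply n h5 h6]
    congr 2
    exact ((autEquiv n h5 h6).apply_symm_apply (β γ)).symm
  rcases Nat.even_or_odd n with hev | hodd
  · -- `n` even
    have hodd : Odd (Fintype.card (Option (Fin n))) := by
      rw [Fintype.card_option, Fintype.card_fin]
      exact hev.add_one
    have h5' : 5 ≤ Fintype.card (Option (Fin n)) := by
      rw [Fintype.card_option, Fintype.card_fin]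
      omega
    let β'' : (L ≃ₐ[K] L) →* Perm (Option (Fin n)) :=
      { toFun := fun γ => Equiv.optionCongr (β' γ)
        map_one' := by
          rw [map_one]
          ext o : 1
          cases o <;> rfl
        map_mul' := fun γ δ => by
          rw [map_mul]
          ext o : 1
          cases o <;> rfl }
    obtain ⟨U, iU, icU, aKU, aLU, tU, u, hu⟩ := exists_univ K L (Option (Option (Fin n)))
    have cU : CharP U p := charP_of_injective_algebraMap (algebraMap K U).injective p
    obtain ⟨ξ, hξ, A1, A2, A3, A4⟩ := setup K L (Option (Fin n)) hodd h5' β'' U u hu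
      (hNP _ U hodd)
    refine frame_alt K L n β β' hβ U (Option (Option (Fin n)))
      (zz (fun j => u (some j)) (ξ none)) (A4 none) (fun i => ξ (some i))
      (hξ.comp (Option.some_injective _)) ?_ ?_
    · intro σ γ h1 h2
      have h3 : ∀ j, σ (u (some j)) = u (some j) := fun j => h2 (some j)
      have h4 : σ (ξ none) = ξ none := h2 none
      obtain ⟨b, hb1, hb2⟩ := A2 σ γ h1 h3 (A1 σ γ h1 h3 none h4)
      have hbn : b none = none := by
        apply hξ
        rw [← hb1, h4]
      have hbs : ∀ i, some (Equiv.removeNone b i) = b (some i) := by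
        intro i
        apply Equiv.removeNone_some
        rcases h : b (some i) with _ | j
        · exfalso
          have := b.injective (hbn.trans h.symm)
          cases this
        · exact ⟨j, rfl⟩
      have hbo : Equiv.optionCongr (Equiv.removeNone b) = b := by
        ext o : 1
        rcases o with _ | i
        · rw [hbn]
          rfl
        · exact hbs i
      refine ⟨Equiv.removeNone b, fun i => ?_, ?_⟩
      · rw [hb1, ← hbs]
      · rw [← Equiv.optionCongr_sign, hbo, hb2]
        exact Equiv.optionCongr_sign _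
    · intro s hs
      obtain ⟨σ, h1, h2, h3⟩ := A3 (Equiv.optionCongr s) (by
        rw [Perm.mem_alternatingGroup, Equiv.optionCongr_sign]
        exact Perm.mem_alternatingGroup.1 hs)
      refine ⟨σ, h1, fun o => ?_, fun i => h3 (some i)⟩
      rcases o with _ | j
      · exact h3 none
      · exact h2 (some j)
  · -- `n` odd
    have hodd' : Odd (Fintype.card (Fin n)) := by rwa [Fintype.card_fin]
    obtain ⟨U, iU, icU, aKU, aLU, tU, u, hu⟩ := exists_univ K L (Option (Fin n))
    have cU : CharP U p := charP_of_injective_algebraMap (algebraMap K U).injective p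
    obtain ⟨ξ, hξ, A1, A2, A3, A4⟩ := setup K L (Fin n) hodd' (by rwa [Fintype.card_fin]) β' U u hu
      (hNP _ U hodd')
    refine frame_alt K L n β β' hβ U (Option (Fin n)) u hu ξ hξ ?_ ?_
    · intro σ γ h1 h2
      exact A2 σ γ h1 (fun i => h2 (some i)) (h2 none)
    · intro s hs
      exact A3 s hs

end Pool.Agent.K7.H53.MA
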