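import Pool.Agent.K7.H53.MA.Main

/-!
# Consequences over `κ(X)`, over Hilbertian fields and over `K(t)`
-/

set_option autoImplicit false

namespace Pool.Agent.K7.H53.MA

open Pool.Agent.Y60.DC
open Pool.Agent.Y60.DCF (Factor compIn_mono)
open Pool.Agent.H391R2 Pool.Agent.H391R2.T4
open Pool.Agent.TH15.IGP (StepSol Lim)
open Pool.Agent.TH444.TW (Cls RSK infinite_ratFunc infinite_of_hilb)

/-- `G` occurs over `F`: it is the Galois group of a finite Galois extension of `F`. -/
def Occurs (F G : Type) [Field F] [Group G] : Prop :=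
  ∃ (L : Type) (_ : Field L) (_ : Algebra F L),
    FiniteDimensional F L ∧ IsGalois F L ∧ Nonempty ((L ≃ₐ[F] L) ≃* G)

/-- `G` occurs regularly over `K`: it is the Galois group of a finite Galois extension of `K(t)` in
which `K` is algebraically closed. -/
def OccursRegularly (K G : Type) [Field K] [Group G] : Prop :=
  ∃ (F : Type) (_ : Field F) (_ : Algebra (RatFunc K) F) (_ : Algebra K F)
    (_ : IsScalarTower K (RatFunc K) F) (_ : FiniteDimensional (RatFunc K) F)
    (_ : IsGalois (RatFunc K) F),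
    Nonempty ((F ≃ₐ[RatFunc K] F) ≃* G) ∧
    ∀ y : F, IsAlgebraic K y → y ∈ Set.range (algebraMap K F)

theorem regular_of (p : ℕ) [Fact p.Prime] (G : Type) [Group G] [Finite G]
    (h : CompIn (FactorA p) G) (K : Type) [Field K] [CharP K p] : OccursRegularly K G := by
  let α : G →* (K ≃ₐ[K] K) := 1
  have hα : Function.Surjective α := fun σ => ⟨1, by
    ext x
    exact (σ.commutes x).symm⟩
  have e : G ≃* α.ker := (Subgroup.topEquiv.symm).trans (MulEquiv.subgroupCongr (by
    ext x
    simp [α]))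
  have hc : CompIn (FacA p) α.ker := Pool.Agent.Y419.DC.quot
    (fun T T' _ _ h h' => FacA.iso p T T' h h') (fun T _ h => FacA.simple p T h)
    (compIn_mono (fun T _ h => FactorA.old p T h) h) _ e.toMonoidHom e.surjective
  have hR : RegSol K K G 1 := by
    rcases finite_or_infinite K with hfin | hinf
    · refine Pool.Agent.TH15.IGP.fin_of_inf K K G _ ?_
      intro M' _ _ _ _ γM
      have := infinite_ratFunc K
      have hch : CharP (RatFunc K) p :=
        charP_of_injective_algebraMap (algebraMap K (RatFunc K)).injective p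
      have h1 : (γM.symm.toMonoidHom.comp α).ker = α.ker := by
        ext x
        rw [MonoidHom.mem_ker, MonoidHom.mem_ker]
        exact map_eq_one_iff γM.symm γM.symm.injective
      refine regA_inf p (RatFunc K) M' G _ (γM.symm.surjective.comp hα) ?_
      rw [h1]
      exact hc
    · exact regA_inf p K K G α hα hc
  obtain ⟨F, i1, i2, i3, i4, i5, i6, i7, i8, γ, h1, hreg⟩ := hR
  have h34 : i4 = i3 := Algebra.algebra_ext i4 i3 (fun x =>
    @IsScalarTower.algebraMap_apply K K F _ _ _ _ i3 i4 i6 x)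
  subst h34
  exact ⟨F, i1, i2, i4, i5, i7, i8, ⟨γ⟩, hreg⟩

/-- From a group to an extension of the group. -/
theorem extend (p : ℕ) [Fact p.Prime] (κ : Type) [Field κ] [Finite κ] [CharP κ p]
    (G G' : Type) [Group G] [Group G'] (π : G' →* G) (h : Step p π)
    (hq : Occurs (RatFunc κ) G) : Occurs (RatFunc κ) G' := by
  obtain ⟨L, i1, i2, i3, i4, ⟨e⟩⟩ := hq
  have := charP_ratFunc κ p
  have hfG : Finite G := Finite.of_equiv _ e.toEquiv
  have hker : Finite π.ker := h.2.1
  have hfG' : Finite G' := Pool.Agent.TH444.TW.finite_of_ker π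
  let α : G' →* (L ≃ₐ[RatFunc κ] L) := (e.symm : G →* (L ≃ₐ[RatFunc κ] L)).comp π
  have hα : StepA p (RatFunc κ) α := by
    refine StepA.comp (e.symm : G →* (L ≃ₐ[RatFunc κ] L)) π ?_ (h.toA p _)
    refine StepA.kernel _ e.symm.surjective inferInstance ?_
    refine CompIn.one _ ⟨fun a b => ?_⟩
    have h1 : ∀ a : (e.symm : G →* (L ≃ₐ[RatFunc κ] L)).ker, (a : G) = 1 := fun a =>
      (map_eq_one_iff e.symm e.symm.injective).1 a.2
    exact Subtype.ext ((h1 a).trans (h1 b).symm)
  obtain ⟨F, j1, j2, -, -, j5, j6, γ, -⟩ := stepA_spec_one p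
    (Pool.Agent.TH377.IG.spec_ratFunc κ) L G' α hα
  exact ⟨F, j1, j2, j5, j6, ⟨γ⟩⟩

/-- Groups over `F_p(X)`. -/
theorem occurs_of (p : ℕ) [Fact p.Prime] (G : Type) [Group G] [Finite G]
    (h : CompIn (FactorA p) G) : Occurs (RatFunc (ZMod p)) G := by
  have := charP_ratFunc (ZMod p) p
  let K := RatFunc (ZMod p)
  let α : G →* (K ≃ₐ[K] K) := 1
  have hα : Function.Surjective α := fun σ => ⟨1, by
    ext x
    exact (σ.commutes x).symm⟩
  have e : G ≃* α.ker := (Subgroup.topEquiv.symm).trans (MulEquiv.subgroupCongr (by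
    ext x
    simp [α]))
  have hc : CompIn (FacA p) α.ker := Pool.Agent.Y419.DC.quot
    (fun T T' _ _ h h' => FacA.iso p T T' h h') (fun T _ h => FacA.simple p T h)
    (compIn_mono (fun T _ h => FactorA.old p T h) h) _ e.toMonoidHom e.surjective
  have := infinite_ratFunc (ZMod p)
  obtain ⟨F, i1, i2, i3, i4, i5, i6, i7, i8, γ, hγ, -⟩ := regA_inf p K K G α hα hc
  obtain ⟨F', j1, j2, -, -, j5, j6, γ', -⟩ := Pool.Agent.TH377.IG.spec_ratFunc (ZMod p) K G α
    ⟨F, i1, i2, i3, i4, i5, i6, i7, i8, γ, hγ⟩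
  exact ⟨F', j1, j2, j5, j6, ⟨γ'⟩⟩

/-- Regular solutions. -/
theorem reg_all (p : ℕ) [Fact p.Prime] (K L E : Type) [Field K] [CharP K p] [Field L]
    [Algebra K L] [FiniteDimensional K L] [IsGalois K L] [Group E]
    (α : E →* (L ≃ₐ[K] L)) (h : Step p α) : RegSol K L E α :=
  (stepA_one p K L E α (h.toA p K)).2

/-- Proper solutions over Hilbertian fields. -/
theorem proper_hilb (p : ℕ) [Fact p.Prime] (K L E : Type) [Field K] [CharP K p] [Field L]
    [Algebra K L] [FiniteDimensional K L] [IsGalois K L] [Group E]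
    (α : E →* (L ≃ₐ[K] L)) (h : Step p α) (hK : HilbField K) :
    ∃ (F : Type) (_ : Field F) (_ : Algebra K F) (_ : Algebra L F) (_ : IsScalarTower K L F),
      FiniteDimensional K F ∧ IsGalois K F ∧
      ∃ γ : (F ≃ₐ[K] F) ≃* E, ∀ σ : F ≃ₐ[K] F, α (γ σ) = σ.restrictNormal L :=
  stepA_spec_one p (Pool.Agent.TH377.IG.spec_hilb hK) L E α (h.toA p K)

end Pool.Agent.K7.H53.MA
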