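import Pool.Agent.K7.H53.MA.Core

/-!
# Characteristic two, from characteristic zero by Witt vectors
-/

set_option autoImplicit false
set_option linter.unusedSectionVars false
set_option linter.unusedVariables false

open Polynomial Finset

namespace Pool.Agent.K7.H53.MA

section ring

variable {J D : Type} [Fintype J] [DecidableEq J] [CommRing D]

theorem eval_Pq (x : J → D) (z : D) : (Pp x).eval z = ∏ i, (z - x i) := by
  unfold Pp
  rw [eval_prod]
  simp

/-- the matrix `1 / (x_i - x_j)` over a ring -/
noncomputable def Mi (x : J → D) : Matrix J J D := Matrix.of fun i j => Ring.inverse (x i - x j)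

theorem Mi_map [Nontrivial D] {E : Type} [Field E] (f : D →+* E) (x : J → D)
    (hx : ∀ i j, i ≠ j → IsUnit (x i - x j)) : (Mi x).map f = Mm fun i => f (x i) := by
  ext i j
  change f (Ring.inverse (x i - x j)) = (f (x i) - f (x j))⁻¹
  by_cases h : i = j
  · rw [h, sub_self, sub_self, Ring.inverse_zero, map_zero, inv_zero]
  · obtain ⟨u, hu⟩ := hx i j h
    rw [← map_sub, ← hu, Ring.inverse_unit]
    exact eq_inv_of_mul_eq_one_left (by rw [← map_mul, Units.inv_mul, map_one])

/-- the partner over a ring -/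
noncomputable def ri (x : J → D) : D[X] := Rr x fun j => (Mi x).adjugate j j

theorem ri_map [Nontrivial D] {E : Type} [Field E] (f : D →+* E) (x : J → D)
    (hx : ∀ i j, i ≠ j → IsUnit (x i - x j)) : (ri x).map f = rs fun i => f (x i) := by
  unfold ri rs
  rw [map_Rr]
  congr 1
  ext j
  rw [← Mi_map f x hx]
  exact adj_map f (Mi x) j j

end ring

section witt

open WittVector (teichmuller constantCoeff)

variable {J U : Type} [Fintype J] [DecidableEq J] [Field U] [IsAlgClosed U] [CharP U 2]

/-- the Witt vectors -/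
abbrev W2 (U : Type) [Field U] : Type := WittVector 2 U

theorem cc_teich (a : U) : (constantCoeff : W2 U →+* U) (teichmuller 2 a) = a :=
  WittVector.teichmuller_coeff_zero 2 a

theorem unit_of_cc (a : W2 U) (h : (constantCoeff : W2 U →+* U) a ≠ 0) : IsUnit a :=
  WittVector.isUnit_of_coeff_zero_ne_zero a h

theorem two_ne_W : (2 : W2 U) ≠ 0 := by
  have h := WittVector.p_nonzero 2 U
  exact_mod_cast h

/-- Hensel's lemma. -/
theorem hensel (f : (W2 U)[X]) (hf : f.Monic) (a₀ : W2 U)
    (h0 : (constantCoeff : W2 U →+* U) (f.eval a₀) = 0)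
    (h1 : (constantCoeff : W2 U →+* U) (f.derivative.eval a₀) ≠ 0) :
    ∃ a, f.eval a = 0 ∧ (constantCoeff : W2 U →+* U) a = (constantCoeff : W2 U →+* U) a₀ := by
  have hk : ∀ a : W2 U, a ∈ Ideal.span {((2 : ℕ) : W2 U)} ↔
      (constantCoeff : W2 U →+* U) a = 0 := by
    intro a
    rw [← WittVector.ker_constantCoeff, RingHom.mem_ker]
  obtain ⟨a, ha, ha2⟩ := HenselianRing.is_henselian (I := Ideal.span {((2 : ℕ) : W2 U)}) f hf a₀
    ((hk _).2 h0) ((unit_of_cc _ h1).map _)
  refine ⟨a, ha, ?_⟩
  have h2 := (hk _).1 ha2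
  rw [map_sub] at h2
  exact sub_eq_zero.1 h2

theorem lift_roots (f : (W2 U)[X]) (hf : f.Monic) (hd : f.natDegree = Fintype.card J)
    (ξ : J → U) (hξ : Function.Injective ξ)
    (h : f.map (constantCoeff : W2 U →+* U) = Pp ξ) :
    ∃ Ξ : J → W2 U, (∀ j, (constantCoeff : W2 U →+* U) (Ξ j) = ξ j) ∧ f = Pp Ξ := by
  classical
  have h1 : ∀ j, ∃ a, f.eval a = 0 ∧ (constantCoeff : W2 U →+* U) a = ξ j := by
    intro j
    have h2 : ∀ g : (W2 U)[X], (constantCoeff : W2 U →+* U) (g.eval (teichmuller 2 (ξ j))) =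
        (g.map (constantCoeff : W2 U →+* U)).eval (ξ j) := by
      intro g
      conv_rhs => rw [← cc_teich (ξ j)]
      rw [eval_map, eval₂_at_apply]
    obtain ⟨a, ha, ha2⟩ := hensel f hf (teichmuller 2 (ξ j)) (by
      rw [h2, h, eval_Pp]
      exact Finset.prod_eq_zero (mem_univ j) (sub_self _)) (by
      rw [h2, ← derivative_map, h, eval_deriv_Pp]
      exact eval_Pj_self hξ j)
    exact ⟨a, ha, by rw [ha2, cc_teich]⟩
  choose Ξ hΞ hΞ2 using h1
  refine ⟨Ξ, hΞ2, ?_⟩
  have hinj : Function.Injective Ξ := fun i j hij => hξ (by rw [← hΞ2, ← hΞ2, hij])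
  have h3 : f - Pp Ξ = 0 := by
    rcases isEmpty_or_nonempty J with hJ | hJ
    · have h4 : f = 1 := by
        rw [Fintype.card_eq_zero] at hd
        exact hf.natDegree_eq_zero.1 hd
      rw [h4]
      simp [Pp]
    refine Polynomial.eq_zero_of_degree_lt_of_eval_finset_eq_zero (univ.image Ξ) ?_ ?_
    · rw [Finset.card_image_of_injective _ hinj, Finset.card_univ]
      have h4 : f.degree = (Pp Ξ).degree := by
        rw [degree_eq_natDegree hf.ne_zero, degree_eq_natDegree (monic_Pp Ξ).ne_zero, hd,
          natDegree_Pp]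
      refine lt_of_lt_of_le (degree_sub_lt_left h4 hf.ne_zero ?_) ?_
      · rw [hf.leadingCoeff, (monic_Pp Ξ).leadingCoeff]
      · rw [degree_eq_natDegree hf.ne_zero, hd]
    · intro z hz
      obtain ⟨j, -, rfl⟩ := Finset.mem_image.1 hz
      rw [eval_sub, hΞ j, eval_Pq]
      rw [Finset.prod_eq_zero (mem_univ j) (sub_self _), sub_zero]
  exact sub_eq_zero.1 h3

theorem unit_diff {x : J → U} (hx : Function.Injective x) (y : J → W2 U)
    (hy : ∀ j, (constantCoeff : W2 U →+* U) (y j) = x j) (i j : J) (h : i ≠ j) :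
    IsUnit (y i - y j) := by
  apply unit_of_cc
  rw [map_sub, hy, hy, sub_ne_zero]
  exact fun e => h (hx e)

theorem lift_f [Nonempty J] {x ξ : J → U} {T : U} (hx : Function.Injective x)
    (hξ : Function.Injective ξ) (hf : Pp ξ = Pp x - C T * rs x) :
    ∃ Ξ : J → W2 U, (∀ j, (constantCoeff : W2 U →+* U) (Ξ j) = ξ j) ∧
      Pp Ξ = Pp (fun j => (teichmuller 2 (x j) : W2 U)) -
        C (teichmuller 2 T) * ri fun j => (teichmuller 2 (x j) : W2 U) := by
  let y : J → W2 U := fun j => teichmuller 2 (x j)
  have hu := unit_diff hx y fun j => cc_teich (x j)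
  have h1 : (C (teichmuller 2 T : W2 U) * ri y).degree < (Pp y).degree := by
    rw [degree_eq_natDegree (monic_Pp y).ne_zero, natDegree_Pp]
    have h2 : C (teichmuller 2 T : W2 U) * ri y =
        Rr y fun j => (teichmuller 2 T : W2 U) * (Mi y).adjugate j j := by
      rw [Rr_smul]
      rfl
    rw [h2]
    exact degree_Rr_lt y _
  obtain ⟨Ξ, h3, h4⟩ := lift_roots (Pp y - C (teichmuller 2 T : W2 U) * ri y)
    ((monic_Pp y).sub_of_left h1) (by
      rw [← natDegree_Pp y]
      exact natDegree_eq_of_degree_eq (degree_sub_eq_left_of_degree_lt h1)) ξ hξ (by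
      rw [Polynomial.map_sub, Polynomial.map_mul, map_C, map_Pp, ri_map _ y hu, hf]
      have h5 : (fun i => (constantCoeff : W2 U →+* U) (y i)) = x :=
        _root_.funext fun i => cc_teich (x i)
      rw [h5, cc_teich])
  exact ⟨Ξ, h3, h4.symm⟩

/-- the field of fractions -/
abbrev F2 (U : Type) [Field U] [CharP U 2] : Type := FractionRing (W2 U)

theorem two_ne_F : (2 : F2 U) ≠ 0 := by
  intro h
  apply two_ne_W (U := U)
  apply IsFractionRing.injective (W2 U) (F2 U)
  rw [map_ofNat, map_zero]
  exact h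

theorem gd_lift {x : J → U} (hx : Function.Injective x) (hg : Gd x) (y : J → W2 U)
    (hy : ∀ j, (constantCoeff : W2 U →+* U) (y j) = x j) :
    Gd fun j => algebraMap (W2 U) (F2 U) (y j) := by
  intro j
  have hu := unit_diff hx y hy
  have h1 := adj_map (algebraMap (W2 U) (F2 U)) (Mi y) j j
  rw [Mi_map _ y hu] at h1
  rw [← h1]
  intro h2
  rw [← map_zero (algebraMap (W2 U) (F2 U))] at h2
  have h3 := IsFractionRing.injective (W2 U) (F2 U) h2
  have h4 := adj_map (constantCoeff : W2 U →+* U) (Mi y) j j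
  rw [Mi_map _ y hu, h3, map_zero] at h4
  apply hg j
  have h5 : (fun j => (constantCoeff : W2 U →+* U) (y j)) = x := _root_.funext hy
  rw [h5] at h4
  exact h4.symm

theorem inj_lift {x : J → U} (hx : Function.Injective x) (y : J → W2 U)
    (hy : ∀ j, (constantCoeff : W2 U →+* U) (y j) = x j) :
    Function.Injective fun j => algebraMap (W2 U) (F2 U) (y j) := fun i j hij =>
  hx (by rw [← hy, ← hy, IsFractionRing.injective (W2 U) (F2 U) hij])

theorem f_lift {y Ξ : J → W2 U} {t : W2 U} (hu : ∀ i j, i ≠ j → IsUnit (y i - y j))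
    (h : Pp Ξ = Pp y - C t * ri y) :
    Pp (fun j => algebraMap (W2 U) (F2 U) (Ξ j)) =
      Pp (fun j => algebraMap (W2 U) (F2 U) (y j)) -
        C (algebraMap (W2 U) (F2 U) t) * rs fun j => algebraMap (W2 U) (F2 U) (y j) := by
  have h1 := congrArg (Polynomial.map (algebraMap (W2 U) (F2 U))) h
  rw [Polynomial.map_sub, Polynomial.map_mul, map_C, map_Pp, map_Pp, ri_map _ y hu] at h1
  exact h1

theorem nice_two_U (hodd : Odd (Fintype.card J)) : Nice J U where
  det x hx := by
    let y : J → W2 U := fun j => teichmuller 2 (x j)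
    have hy : ∀ j, (constantCoeff : W2 U →+* U) (y j) = x j := fun j => cc_teich (x j)
    have hu := unit_diff hx y hy
    have h1 : (Mi y).det = 0 := by
      apply IsFractionRing.injective (W2 U) (F2 U)
      rw [RingHom.map_det, map_zero]
      change ((Mi y).map (algebraMap (W2 U) (F2 U))).det = 0
      rw [Mi_map _ y hu]
      exact det_zero two_ne_F hodd _
    have h2 := congrArg (constantCoeff : W2 U →+* U) h1
    rw [RingHom.map_det, map_zero] at h2
    change ((Mi y).map (constantCoeff : W2 U →+* U)).det = 0 at h2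
    rw [Mi_map _ y hu] at h2
    have h3 : (fun i => (constantCoeff : W2 U →+* U) (y i)) = x := _root_.funext hy
    rwa [h3] at h2
  partner x ξ T hx hξ hg hg' hf := by
    have hne : Nonempty J := Fintype.card_pos_iff.1 hodd.pos
    let y : J → W2 U := fun j => teichmuller 2 (x j)
    have hy : ∀ j, (constantCoeff : W2 U →+* U) (y j) = x j := fun j => cc_teich (x j)
    have hu := unit_diff hx y hy
    obtain ⟨Ξ, h1, h2⟩ := lift_f hx hξ hf
    have hu' := unit_diff hξ Ξ h1
    obtain ⟨μ, hμ⟩ := partner two_ne_F hodd (inj_lift hx y hy) (inj_lift hξ Ξ h1)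
      (gd_lift hx hg y hy) (gd_lift hξ hg' Ξ h1) (f_lift hu h2)
    have h3 : ∀ a b, (rs x).coeff a * (rs ξ).coeff b = (rs x).coeff b * (rs ξ).coeff a := by
      intro a b
      have h4 : (ri y).coeff a * (ri Ξ).coeff b = (ri y).coeff b * (ri Ξ).coeff a := by
        apply IsFractionRing.injective (W2 U) (F2 U)
        rw [map_mul, map_mul, ← coeff_map, ← coeff_map, ← coeff_map, ← coeff_map,
          ri_map _ y hu, ri_map _ Ξ hu', hμ, coeff_C_mul, coeff_C_mul]
        ring
      have h5 := congrArg (constantCoeff : W2 U →+* U) h4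
      rw [map_mul, map_mul, ← coeff_map, ← coeff_map, ← coeff_map, ← coeff_map,
          ri_map _ y hu, ri_map _ Ξ hu'] at h5
      have h6 : (fun i => (constantCoeff : W2 U →+* U) (y i)) = x := _root_.funext hy
      have h7 : (fun i => (constantCoeff : W2 U →+* U) (Ξ i)) = ξ := _root_.funext h1
      rwa [h6, h7] at h5
    obtain ⟨b, hb⟩ : ∃ b, (rs ξ).coeff b ≠ 0 := by
      by_contra h
      push Not at h
      exact rs_ne hξ hg' (Polynomial.ext h)
    refine ⟨(rs x).coeff b / (rs ξ).coeff b, Polynomial.ext fun a => ?_⟩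
    rw [coeff_C_mul, div_mul_eq_mul_div, eq_div_iff hb]
    exact h3 a b
  sgn x ξ T hT hx hξ hg hf σ a b hσT ha hb := by
    have hne : Nonempty J := Fintype.card_pos_iff.1 hodd.pos
    let y : J → W2 U := fun j => teichmuller 2 (x j)
    have hy : ∀ j, (constantCoeff : W2 U →+* U) (y j) = x j := fun j => cc_teich (x j)
    have hu := unit_diff hx y hy
    obtain ⟨Ξ, h1, h2⟩ := lift_f hx hξ hf
    let s : W2 U →+* W2 U := WittVector.map (σ : U →+* U)
    have hs : Function.Injective s := WittVector.map_injective _ σ.injective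
    have hsy : ∀ j, s (y j) = y (a j) := by
      intro j
      change WittVector.map (σ : U →+* U) (teichmuller 2 (x j)) = teichmuller 2 (x (a j))
      rw [WittVector.map_teichmuller]
      congr 1
      exact ha j
    have hsT : s (teichmuller 2 T) = teichmuller 2 T := by
      change WittVector.map (σ : U →+* U) (teichmuller 2 T) = teichmuller 2 T
      rw [WittVector.map_teichmuller]
      congr 1
    have hcs : ∀ w, (constantCoeff : W2 U →+* U) (s w) =
        σ ((constantCoeff : W2 U →+* U) w) := fun w =>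
      WittVector.map_coeff (σ : U →+* U) w 0
    have hsM : (ri y).map s = ri y := by
      unfold ri
      rw [map_Rr]
      have h3 : (fun i => s (y i)) = fun i => y (a i) := _root_.funext hsy
      have h4 : ∀ j, s ((Mi y).adjugate j j) = (Mi y).adjugate (a j) (a j) := by
        intro j
        rw [adj_map]
        have h5 : (Mi y).map s = (Mi y).submatrix a a := by
          refine Matrix.ext fun i j => ?_
          change s (Ring.inverse (y i - y j)) = Ring.inverse (y (a i) - y (a j))
          by_cases h : i = j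
          · rw [h, sub_self, sub_self, Ring.inverse_zero, map_zero]
          · obtain ⟨v, hv⟩ := hu i j h
            have h8 : y (a i) - y (a j) = s (v : W2 U) := by
              rw [hv, map_sub s (y i) (y j), hsy, hsy]
            rw [h8, ← hv, Ring.inverse_unit]
            have h6 : s (v : W2 U) = ((Units.map (s : W2 U →* W2 U) v : (W2 U)ˣ) : W2 U) := rfl
            rw [h6, Ring.inverse_unit]
            rfl
        rw [h5, Matrix.adjugate_submatrix_equiv_self]
        rfl
      have h7 : (fun i => s ((Mi y).adjugate i i)) = fun i => (Mi y).adjugate (a i) (a i) :=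
        _root_.funext h4
      rw [h3, h7]
      exact Rr_perm y (fun j => (Mi y).adjugate j j) a
    have hsΞ : ∀ j, s (Ξ j) = Ξ (b j) := by
      intro j
      have h3 : (Pp Ξ).map s = Pp Ξ := by
        rw [h2, Polynomial.map_sub, Polynomial.map_mul, map_C, map_Pp]
        change (Pp fun i => s (y i)) - C (s (teichmuller 2 T)) * (ri y).map s = _
        rw [hsM, hsT]
        have h4 : (fun i => s (y i)) = fun i => y (a i) := _root_.funext hsy
        rw [h4, Pp_perm]
      have h5 : (Pp Ξ).eval (s (Ξ j)) = 0 := by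
        rw [← h3, eval_map, eval₂_at_apply, eval_Pq, Finset.prod_eq_zero (mem_univ j)
          (sub_self _), map_zero]
      rw [eval_Pq] at h5
      obtain ⟨l, -, hl⟩ := Finset.prod_eq_zero_iff.1 h5
      have h6 : s (Ξ j) = Ξ l := sub_eq_zero.1 hl
      have h7 := congrArg (constantCoeff : W2 U →+* U) h6
      rw [hcs, h1, h1, hb] at h7
      rw [h6, hξ h7]
    let S : F2 U →+* F2 U := IsFractionRing.map (K := F2 U) (L := F2 U) hs
    have hS : ∀ w, S (algebraMap (W2 U) (F2 U) w) = algebraMap (W2 U) (F2 U) (s w) := fun w =>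
      IsLocalization.map_eq _ _
    refine sgn_eq two_ne_F hodd ?_ (inj_lift hx y hy) (inj_lift hξ Ξ h1) (gd_lift hx hg y hy)
      (f_lift hu h2) S a b (fun i => ?_) (fun i => ?_)
    · intro h
      rw [← map_zero (algebraMap (W2 U) (F2 U))] at h
      have h3 := IsFractionRing.injective (W2 U) (F2 U) h
      have h4 := congrArg (constantCoeff : W2 U →+* U) h3
      rw [cc_teich, map_zero] at h4
      exact hT h4
    · rw [hS, hsy]
    · rw [hS, hsΞ]

end witt

end Pool.Agent.K7.H53.MA
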