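import Pool.Agent.K7.H53.MA.Defs
import Pool.Agent.K7.H53.MA.Alt
import Pool.Agent.K7.H53.MA.Witt
import Pool.Agent.Y60.DCF.Main
import Pool.Agent.Y461.DC.Cent

/-!
# Kernels whose composition factors are alternating groups, groups of order `p` and classical groups
-/

set_option autoImplicit false

namespace Pool.Agent.K7.H53.MA

open Pool.Agent.Y60.DC
open Pool.Agent.Y60.DCF (Factor compIn_mono)
open Pool.Agent.H391R2 Pool.Agent.H391R2.T4
open Pool.Agent.TH15.IGP (StepSol Lim)
open Pool.Agent.TH444.TW (Cls RSK infinite_ratFunc infinite_of_hilb)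

theorem niceP (p : ℕ) [hp : Fact p.Prime] : NiceP p := by
  by_cases h2 : p = 2
  · subst h2
    intro J U _ _ _ _ _ hodd
    exact nice_two_U hodd
  · exact niceP_of_ne p h2

theorem IsAlt.iso {T T' : Type} [Group T] [Group T'] (e : T ≃* T') (h : IsAlt T) : IsAlt T' := by
  obtain ⟨n, h1, h2, ⟨f⟩⟩ := h
  exact ⟨n, h1, h2, ⟨e.symm.trans f⟩⟩

theorem IsAlt.simple {T : Type} [Group T] (h : IsAlt T) : IsSimpleGroup T := by
  obtain ⟨n, h1, h2, ⟨f⟩⟩ := h
  have hs : IsSimpleGroup (alternatingGroup (Fin n)) :=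
    alternatingGroup.isSimpleGroup (by rwa [Nat.card_eq_fintype_card, Fintype.card_fin])
  exact f.isSimpleGroup

theorem IsAlt.good (p : ℕ) [Fact p.Prime] {T : Type} [Group T] (h : IsAlt T) :
    Finite T ∧ Subgroup.center T = ⊥ ∧ GoodKerP p T := by
  obtain ⟨n, h1, h2, ⟨f⟩⟩ := h
  have hc : Subgroup.center (alternatingGroup (Fin n)) = ⊥ :=
    alternatingGroup.center_eq_bot (by
      rw [Nat.card_eq_fintype_card, Fintype.card_fin]
      omega)
  refine ⟨Finite.of_equiv _ f.symm.toEquiv, center_iso f.symm hc, ?_⟩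
  intro K L X _ _ _ _ _ _ _ _ α hα ⟨e⟩
  exact Pool.Agent.Y461.DC.cent_holds p (alternatingGroup (Fin n)) hc (compl_alt n h1 h2)
    (locP_alt p (niceP p) n h1 h2) K L X α hα ⟨e.trans f⟩

/-- The larger class of factors. -/
def FacA (p : ℕ) [Fact p.Prime] (T : Type) [Group T] : Prop := IsAlt T ∨ FacC p T

theorem FactorA.old (p : ℕ) [Fact p.Prime] (T : Type) [Group T] (h : FactorA p T) : FacA p T :=
  h.imp id fun h => h.old

theorem FacA.iso (p : ℕ) [Fact p.Prime] (T T' : Type) [Group T] [Group T']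
    (e : Nonempty (T ≃* T')) (h : FacA p T) : FacA p T' := by
  rcases h with h | h
  · obtain ⟨e⟩ := e
    exact Or.inl (h.iso e)
  · exact Or.inr (FacC.iso p T T' e h)

theorem FacA.simple (p : ℕ) [Fact p.Prime] (T : Type) [Group T] (h : FacA p T) :
    IsSimpleGroup T := by
  rcases h with h | h
  · exact h.simple
  · exact FacC.simple p T h

theorem FacA.good (p : ℕ) [Fact p.Prime] (T : Type) [Group T] (h : FacA p T) :
    Nat.card T = p ∨ (Finite T ∧ Subgroup.center T = ⊥ ∧ GoodKerP p T) := by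
  rcases h with h | h
  · exact Or.inr (h.good p)
  · exact FacC.good p T h

/-- Embedding problems over infinite fields of characteristic `p`. -/
theorem regA_inf (p : ℕ) [Fact p.Prime] (K L X : Type) [Field K] [CharP K p]
    [Infinite K] [Field L] [Algebra K L] [FiniteDimensional K L] [IsGalois K L] [Group X]
    [Finite X] (α : X →* (L ≃ₐ[K] L)) (hα : Function.Surjective α)
    (h : CompIn (FacA p) α.ker) : RegSol K L X α :=
  kern_reg_gen p (fun T _ => FacA p T) (fun T T' _ _ e h => FacA.iso p T T' e h)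
    (fun T _ h => FacA.simple p T h) (fun T _ h => FacA.good p T h) _ K L X α hα h rfl

variable {K : Type} [Field K]

/-- The class of homomorphisms (internal form). -/
inductive StepA (p : ℕ) [Fact p.Prime] (K : Type) [Field K] :
    ∀ {W W' : Type} [Group W] [Group W'], (W' →* W) → Prop
  | base {W W' : Type} [Group W] [Group W'] (π : W' →* W)
      (h : Pool.Agent.Y60.DCF.Step p K π) : StepA p K π
  | kernel {W W' : Type} [Group W] [Group W'] (π : W' →* W) (hs : Function.Surjective π)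
      (hfin : Finite π.ker) (h : CompIn (FactorA p) π.ker) : StepA p K π
  | comp {W W' W'' : Type} [Group W] [Group W'] [Group W''] (π : W' →* W) (q : W'' →* W')
      (hp : StepA p K π) (hq : StepA p K q) : StepA p K (π.comp q)
  | quot {W W' W'' : Type} [Group W] [Group W'] [Group W''] (π : W' →* W) (q : W'' →* W')
      (hq : Function.Surjective q) (hpq : StepA p K (π.comp q)) : StepA p K π

theorem Step.toA (p : ℕ) [Fact p.Prime] (K : Type) [Field K] {W W' : Type} [Group W] [Group W']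
    {π : W' →* W} (h : Step p π) : StepA p K π := by
  obtain ⟨h1, h2, h3 | ⟨⟨s, hs⟩, h4⟩⟩ := h
  · exact StepA.kernel π h1 h2 h3
  · exact StepA.base π (Pool.Agent.Y60.DCF.Step.base π (Cls.abelian π s hs h2 h4))

theorem StepA.main (p : ℕ) [Fact p.Prime] [CharP K p] {W W' : Type} [Group W] [Group W']
    {π : W' →* W} (h : StepA p K π) : Finite W → Finite W' ∧ RSK K π := by
  induction h with
  | base π h =>
    intro hW
    exact h.old.main p hW
  | kernel π hs hfin h =>
    intro hW
    have hW' : Finite _ := Pool.Agent.TH444.TW.finite_of_ker π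
    refine ⟨hW', ?_⟩
    intro K' M _ _ _ _ _ _ _ ε
    have hc : CharP K' p := charP_of_injective_algebraMap (algebraMap K K').injective p
    refine regA_inf p K' M _ _ (ε.symm.surjective.comp hs) ?_
    have h1 : (ε.symm.toMonoidHom.comp π).ker = π.ker := by
      ext x
      rw [MonoidHom.mem_ker, MonoidHom.mem_ker]
      exact map_eq_one_iff ε.symm ε.symm.injective
    rw [h1]
    exact compIn_mono (fun T _ h => FactorA.old p T h) h
  | comp π q hp hq ihp ihq =>
    intro hW
    obtain ⟨h1, h2⟩ := ihp hW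
    obtain ⟨h3, h4⟩ := ihq h1
    exact ⟨h3, RSK.comp h2 h4⟩
  | quot π q hq hpq ih =>
    intro hW
    obtain ⟨h1, h2⟩ := ih hW
    exact ⟨Finite.of_surjective q hq, RSK.quot q hq (fun x => rfl) h2⟩

/-- Finite embedding problems. -/
theorem stepA_one (p : ℕ) [Fact p.Prime] (K L X : Type) [Field K] [CharP K p] [Field L]
    [Algebra K L] [FiniteDimensional K L] [IsGalois K L] [Group X] (α : X →* (L ≃ₐ[K] L))
    (h : StepA p K α) : Finite X ∧ RegSol K L X α := by
  obtain ⟨h1, h2⟩ := h.main p inferInstance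
  refine ⟨h1, ?_⟩
  have h3 := h2.all L (MulEquiv.refl _)
  exact h3

theorem towerA_finite (p : ℕ) [Fact p.Prime] [CharP K p] (W : ℕ → Type) [∀ i, Group (W i)]
    (π : ∀ i, W (i + 1) →* W i) (hp : ∀ i, StepA p K (π i)) (h0 : Finite (W 0)) :
    ∀ i, Finite (W i) := by
  intro i
  induction i with
  | zero => exact h0
  | succ i ih => exact ((hp i).main p ih).1

/-- Towers over fields with the specialisation property. -/
theorem stepA_spec (p : ℕ) [Fact p.Prime] {K : Type} [Field K] [CharP K p] [Infinite K]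
    (hK : Pool.Agent.TH377.IG.SpecProp K)
    (W : ℕ → Type) [∀ i, Group (W i)] (π : ∀ i, W (i + 1) →* W i) (hp : ∀ i, StepA p K (π i))
    (L : Type) [Field L] [Algebra K L] [FiniteDimensional K L] [IsGalois K L]
    (e₀ : W 0 ≃* (L ≃ₐ[K] L)) :
    ∃ (F : Type) (_ : Field F) (_ : Algebra K F) (_ : Algebra L F) (_ : IsScalarTower K L F)
      (_ : IsGalois K F) (γ : (F ≃ₐ[K] F) ≃* Lim π),
      (∀ i, IsOpen {σ : F ≃ₐ[K] F | (γ σ).1 i = 1}) ∧
      ∀ (σ : F ≃ₐ[K] F) (x : L),
        σ (algebraMap L F x) = algebraMap L F (e₀ ((γ σ).1 0) x) := by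
  have hfin := towerA_finite p W π hp (Finite.of_equiv _ e₀.symm.toEquiv)
  exact Pool.Agent.TH377.IG.tower_spec hK W π
    (fun i M _ _ _ _ ε => ((hp i).main p (hfin i)).2 K M ε) L e₀

/-- Towers over rational function fields over finite fields. -/
theorem stepA_ratFunc (p : ℕ) [Fact p.Prime] (κ : Type) [Field κ] [Finite κ] [CharP κ p]
    (W : ℕ → Type) [∀ i, Group (W i)] (π : ∀ i, W (i + 1) →* W i)
    (hp : ∀ i, StepA p (RatFunc κ) (π i))
    (L : Type) [Field L] [Algebra (RatFunc κ) L] [FiniteDimensional (RatFunc κ) L]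
    [IsGalois (RatFunc κ) L] (e₀ : W 0 ≃* (L ≃ₐ[RatFunc κ] L)) :
    ∃ (F : Type) (_ : Field F) (_ : Algebra (RatFunc κ) F) (_ : Algebra L F)
      (_ : IsScalarTower (RatFunc κ) L F) (_ : IsGalois (RatFunc κ) F)
      (γ : (F ≃ₐ[RatFunc κ] F) ≃* Lim π),
      (∀ i, IsOpen {σ : F ≃ₐ[RatFunc κ] F | (γ σ).1 i = 1}) ∧
      ∀ (σ : F ≃ₐ[RatFunc κ] F) (x : L),
        σ (algebraMap L F x) = algebraMap L F (e₀ ((γ σ).1 0) x) := by
  have := infinite_ratFunc κ
  have := charP_ratFunc κ p
  exact stepA_spec p (Pool.Agent.TH377.IG.spec_ratFunc κ) W π hp L e₀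

/-- Proper solutions over fields with the specialisation property. -/
theorem stepA_spec_one (p : ℕ) [Fact p.Prime] {K : Type} [Field K] [CharP K p]
    (hK : Pool.Agent.TH377.IG.SpecProp K) (L X : Type) [Field L]
    [Algebra K L] [FiniteDimensional K L] [IsGalois K L] [Group X] (α : X →* (L ≃ₐ[K] L))
    (h : StepA p K α) :
    ∃ (F : Type) (_ : Field F) (_ : Algebra K F) (_ : Algebra L F)
          (_ : IsScalarTower K L F),
          FiniteDimensional K F ∧ IsGalois K F ∧
          ∃ γ : (F ≃ₐ[K] F) ≃* X, ∀ σ : F ≃ₐ[K] F, α (γ σ) = σ.restrictNormal L := by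
  obtain ⟨h1, F, i1, i2, i3, i4, i5, i6, i7, i8, γ, hγ, -⟩ := stepA_one p K L X α h
  exact hK L X α ⟨F, i1, i2, i3, i4, i5, i6, i7, i8, γ, hγ⟩

end Pool.Agent.K7.H53.MA
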