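import Pool.Agent.K7.H53.MA.Mat

/-!
# Algebraically independent elements: the diagonal elements of the adjugate are not zero
-/

set_option autoImplicit false
set_option linter.unusedSectionVars false
set_option linter.unusedVariables false

open Finset

namespace Pool.Agent.K7.H53.MA

section poly

variable {J : Type} [Fintype J] [DecidableEq J]

/-- `∏_{p ≠ (i, j)} (y_{p_1} - y_{p_2})`, zero for `i = j` -/
def Nm {D : Type} [CommRing D] (y : J → D) : Matrix J J D := fun i j =>
  if i = j then 0 else
    ∏ p ∈ (univ.filter fun p : J × J => p.1 ≠ p.2).erase (i, j), (y p.1 - y p.2)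

/-- `∏ (y_{p_1} - y_{p_2})` -/
def Dl {D : Type} [CommRing D] (y : J → D) : D :=
  ∏ p ∈ univ.filter (fun p : J × J => p.1 ≠ p.2), (y p.1 - y p.2)

theorem Dl_ne {D : Type} [CommRing D] [IsDomain D] {y : J → D} (hy : Function.Injective y) :
    Dl y ≠ 0 := by
  refine Finset.prod_ne_zero_iff.2 fun p hp => ?_
  rw [sub_ne_zero]
  exact fun h => (mem_filter.1 hp).2 (hy h)

theorem Nm_mul {D : Type} [CommRing D] (y : J → D) (i j : J) (h : i ≠ j) :
    Nm y i j * (y i - y j) = Dl y := by
  unfold Nm Dl
  rw [if_neg h]
  exact Finset.prod_erase_mul _ (fun p : J × J => y p.1 - y p.2) (mem_filter.2 ⟨mem_univ _, h⟩)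

theorem Nm_diag {D : Type} [CommRing D] (y : J → D) (i : J) : Nm y i i = 0 := by
  unfold Nm
  rw [if_pos rfl]

theorem Nm_map {D E : Type} [CommRing D] [CommRing E] (f : D →+* E) (y : J → D) :
    (Nm y).map f = Nm fun i => f (y i) := by
  ext i j
  rw [Matrix.map_apply]
  unfold Nm
  split_ifs with h
  · rw [map_zero]
  · rw [map_prod]
    refine Finset.prod_congr rfl fun p _ => ?_
    rw [map_sub]

theorem Nm_field {D : Type} [Field D] {y : J → D} (hy : Function.Injective y) :
    Nm y = Dl y • Mm y := by
  ext i j
  rw [Matrix.smul_apply, smul_eq_mul]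
  by_cases h : i = j
  · rw [h, Nm_diag, Mm_diag, mul_zero]
  · have h1 := Nm_mul y i j h
    have h2 := Mm_mul hy i j h
    have h3 : y i - y j ≠ 0 := sub_ne_zero.2 fun e => h (hy e)
    apply mul_right_cancel₀ h3
    rw [h1, mul_assoc, h2, mul_one]

theorem adj_map {D E : Type} [CommRing D] [CommRing E] (f : D →+* E) (M : Matrix J J D) (i j : J) :
    f (M.adjugate i j) = (M.map f).adjugate i j := by
  have h1 := RingHom.map_adjugate f M
  exact congrFun (congrFun h1 i) j

/-- Specialisation. -/
theorem transfer {C O U : Type} [Field C] [Field U] [Algebra C U] [CommRing O] [IsDomain O]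
    [Algebra C O] (x : J → U) (hx : AlgebraicIndependent C x) (y : J → O) (j : J)
    (hy : (Nm y).adjugate j j ≠ 0) : (Mm x).adjugate j j ≠ 0 := by
  intro h
  let G : MvPolynomial J C := (Nm (MvPolynomial.X : J → MvPolynomial J C)).adjugate j j
  have h1 : MvPolynomial.aeval x G = 0 := by
    have h2 := adj_map (MvPolynomial.aeval x : MvPolynomial J C →ₐ[C] U).toRingHom
      (Nm (MvPolynomial.X : J → MvPolynomial J C)) j j
    rw [Nm_map] at h2
    have h3 : (fun i => (MvPolynomial.aeval x : MvPolynomial J C →ₐ[C] U).toRingHom
        (MvPolynomial.X i)) = x := by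
      ext i
      exact MvPolynomial.aeval_X x i
    rw [h3, Nm_field hx.injective, Matrix.adjugate_smul, Matrix.smul_apply, h, smul_zero] at h2
    exact h2
  have h4 : G = 0 := hx (by rw [h1, map_zero])
  apply hy
  have h2 := adj_map (MvPolynomial.aeval y : MvPolynomial J C →ₐ[C] O).toRingHom
    (Nm (MvPolynomial.X : J → MvPolynomial J C)) j j
  rw [Nm_map] at h2
  have h3 : (fun i => (MvPolynomial.aeval y : MvPolynomial J C →ₐ[C] O).toRingHom
      (MvPolynomial.X i)) = y := by
    ext i
    exact MvPolynomial.aeval_X y i
  rw [h3] at h2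
  rw [← h2]
  change (MvPolynomial.aeval y : MvPolynomial J C →ₐ[C] O) G = 0
  rw [h4, map_zero]

end poly

section point

variable {F : Type} [Field F] (m : ℕ) (a : ℕ ↪ F)

/-- the indices -/
abbrev Ix (m : ℕ) : Type := Option (Fin m × Bool)

/-- pairs of points which come together -/
noncomputable def pt : Ix m → PowerSeries F
  | none => PowerSeries.C (a m)
  | some p => PowerSeries.C (a p.1) + if p.2 then PowerSeries.X else 0

/-- the scaled matrix -/
noncomputable def Qm : Matrix (Ix m) (Ix m) (PowerSeries F) := fun i k =>
  match i with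
  | none => if k = none then 1 else 0
  | some p => if k = some p then 0 else if k = some (p.1, !p.2) then (if p.2 then 1 else -1)
      else PowerSeries.X * (pt m a (some p) - pt m a k)⁻¹

theorem const_pt (i : Ix m) : PowerSeries.constantCoeff (pt m a i) =
    match i with
    | none => a m
    | some p => a p.1 := by
  rcases i with _ | ⟨k, b⟩
  · simp [pt]
  · cases b <;> simp [pt]

theorem const_ne {p : Fin m × Bool} {k : Ix m} (h1 : k ≠ some p) (h2 : k ≠ some (p.1, !p.2)) :
    PowerSeries.constantCoeff (pt m a (some p) - pt m a k) ≠ 0 := by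
  rw [map_sub, const_pt, const_pt, sub_ne_zero]
  rcases k with _ | ⟨k, c⟩
  · intro h
    have h3 := a.injective h
    have h4 := p.1.2
    omega
  · intro h
    have h3 : (p.1 : ℕ) = k := a.injective h
    have h4 : p.1 = k := Fin.ext h3
    obtain ⟨p1, p2⟩ := p
    simp only at h4
    subst h4
    cases p2 <;> cases c <;> simp_all

theorem Qm_mul (p : Fin m × Bool) (k : Ix m) (h : some p ≠ k) :
    Qm m a (some p) k * (pt m a (some p) - pt m a k) = PowerSeries.X := by
  unfold Qm
  simp only
  rw [if_neg h.symm]
  split_ifs with h1 h2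
  · rw [h1]
    obtain ⟨p1, p2⟩ := p
    simp only at h2
    subst h2
    simp [pt]
  · rw [h1]
    obtain ⟨p1, p2⟩ := p
    simp only [Bool.not_eq_true] at h2
    subst h2
    simp [pt]
  · rw [mul_assoc, PowerSeries.inv_mul_cancel _ (const_ne m a h.symm h1), mul_one]

theorem pt_inj : Function.Injective (pt m a) := by
  intro i k h
  by_contra hik
  rcases i with _ | p
  · rcases k with _ | q
    · exact hik rfl
    · have h1 := Qm_mul m a q none (fun h => by cases h)
      rw [h, sub_self, mul_zero] at h1
      exact PowerSeries.X_ne_zero h1.symm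
  · have h1 := Qm_mul m a p k hik
    rw [h, sub_self, mul_zero] at h1
    exact PowerSeries.X_ne_zero h1.symm

/-- the involution -/
def tau : Equiv.Perm (Ix m) where
  toFun := fun i => match i with
    | none => none
    | some p => some (p.1, !p.2)
  invFun := fun i => match i with
    | none => none
    | some p => some (p.1, !p.2)
  left_inv := by rintro (_ | ⟨k, b⟩) <;> simp
  right_inv := by rintro (_ | ⟨k, b⟩) <;> simp

theorem det_Qm : (Qm m a).det ≠ 0 := by
  intro h
  have h1 : ((Qm m a).map (PowerSeries.constantCoeff (R := F))).det = 0 := by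
    have h2 := RingHom.map_det (PowerSeries.constantCoeff (R := F)) (Qm m a)
    rw [h, map_zero] at h2
    exact h2.symm
  let d : Ix m → F := fun i => match i with
    | none => 1
    | some p => if p.2 then 1 else -1
  have h3 : (Qm m a).map (PowerSeries.constantCoeff (R := F)) =
      Matrix.of fun i k => d i * ((1 : Matrix (Ix m) (Ix m) F).submatrix (tau m) id) i k := by
    ext i k
    rw [Matrix.map_apply, Matrix.of_apply, Matrix.submatrix_apply, id, Matrix.one_apply]
    by_cases hk : tau m i = k
    · rw [if_pos hk, mul_one]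
      subst hk
      rcases i with _ | p
      · change PowerSeries.constantCoeff (if (none : Ix m) = none then 1 else 0) = 1
        rw [if_pos rfl, map_one]
      · change PowerSeries.constantCoeff (if (some (p.1, !p.2) : Ix m) = some p then 0 else
          if (some (p.1, !p.2) : Ix m) = some (p.1, !p.2) then (if p.2 then 1 else -1)
          else _) = if p.2 = true then 1 else -1
        have h4 : (some (p.1, !p.2) : Ix m) ≠ some p := by
          intro h4
          obtain ⟨p1, p2⟩ := p
          cases p2 <;> simp at h4
        rw [if_neg h4, if_pos rfl]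
        split_ifs <;> simp
    · rw [if_neg hk, mul_zero]
      rcases i with _ | p
      · have hk' : (k : Ix m) ≠ none := fun e => hk e.symm
        change PowerSeries.constantCoeff (if k = none then 1 else 0) = 0
        rw [if_neg hk', map_zero]
      · have hk' : k ≠ some (p.1, !p.2) := fun e => hk e.symm
        change PowerSeries.constantCoeff (if k = some p then 0 else
          if k = some (p.1, !p.2) then (if p.2 then 1 else -1)
          else PowerSeries.X * (pt m a (some p) - pt m a k)⁻¹) = 0
        rw [if_neg hk']
        split_ifs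
        · rw [map_zero]
        · rw [map_mul, PowerSeries.constantCoeff_X, zero_mul]
  rw [h3, Matrix.det_mul_column, Matrix.det_permute, Matrix.det_one, mul_one] at h1
  rcases mul_eq_zero.1 h1 with h4 | h4
  · obtain ⟨i, -, hi⟩ := Finset.prod_eq_zero_iff.1 h4
    rcases i with _ | p
    · exact one_ne_zero hi
    · simp only [d] at hi
      split_ifs at hi
      · exact one_ne_zero hi
      · exact neg_ne_zero.2 one_ne_zero hi
  · rcases Int.units_eq_one_or (Equiv.Perm.sign (tau m)) with h5 | h5 <;> rw [h5] at h4 <;>
      simp at h4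

theorem adj_pt : (Nm (pt m a)).adjugate none none ≠ 0 := by
  intro h
  rw [Matrix.adjugate_apply] at h
  let N' := (Nm (pt m a)).updateRow none (Pi.single none 1)
  let vX : Ix m → PowerSeries F := fun i => if i = none then 1 else PowerSeries.X
  let vD : Ix m → PowerSeries F := fun i => if i = none then 1 else Dl (pt m a)
  have h1 : (Matrix.of fun i k => vX i * N' i k) = Matrix.of fun i k => vD i * Qm m a i k := by
    refine Matrix.ext fun i k => ?_
    rw [Matrix.of_apply, Matrix.of_apply]
    rcases i with _ | p
    · simp only [vX, vD, if_true, one_mul, N', Matrix.updateRow_self, Qm]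
      rw [Pi.single_apply]
    · have h2 : (some p : Ix m) ≠ none := fun h => by cases h
      simp only [vX, vD, if_neg h2, N', Matrix.updateRow_ne h2]
      by_cases hk : some p = k
      · rw [← hk, Nm_diag, mul_zero]
        simp [Qm]
      · have h3 : pt m a (some p) - pt m a k ≠ 0 := sub_ne_zero.2 fun e => hk (pt_inj m a e)
        apply mul_right_cancel₀ h3
        rw [mul_assoc, mul_assoc, Nm_mul _ _ _ hk, Qm_mul m a p k hk, mul_comm]
  have h2 := congrArg Matrix.det h1
  rw [Matrix.det_mul_column, Matrix.det_mul_column] at h2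
  change _ * ((Nm (pt m a)).updateRow none (Pi.single none 1)).det = _ at h2
  rw [h, mul_zero] at h2
  rcases mul_eq_zero.1 h2.symm with h3 | h3
  · obtain ⟨i, -, hi⟩ := Finset.prod_eq_zero_iff.1 h3
    simp only [vD] at hi
    split_ifs at hi
    · exact one_ne_zero hi
    · exact Dl_ne (pt_inj m a) hi
  · exact det_Qm m a h3

end point

/-- **Generic elements.** -/
theorem gd_of_indep {J C U : Type} [Fintype J] [DecidableEq J] [Field C] [Field U] [Algebra C U]
    (hodd : Odd (Fintype.card J)) (x : J → U) (hx : AlgebraicIndependent C x) : Gd x := by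
  intro j
  obtain ⟨m, hm⟩ := hodd
  have hcard : Fintype.card (Ix m) = Fintype.card J := by
    rw [hm]
    simp [Fintype.card_option]
    ring
  let e₀ : Ix m ≃ J := Fintype.equivOfCardEq hcard
  let e : Ix m ≃ J := e₀.trans (Equiv.swap (e₀ none) j)
  have he : e none = j := Equiv.swap_apply_left _ _
  have hx' : AlgebraicIndependent C fun i => x (e i) :=
    hx.comp e e.injective
  let F := AlgebraicClosure C
  have hinf : Infinite F := IsAlgClosed.instInfinite
  have h1 := transfer (O := PowerSeries F) (fun i => x (e i)) hx' (pt m (Infinite.natEmbedding F))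
    none (adj_pt m _)
  have h2 : (Mm fun i => x (e i)) = (Mm x).submatrix e e := rfl
  rw [h2, Matrix.adjugate_submatrix_equiv_self] at h1
  change (Mm x).adjugate (e none) (e none) ≠ 0 at h1
  rwa [he] at h1

end Pool.Agent.K7.H53.MA
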