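import Pool.Agent.K7.H53.MA.Sgn
import Pool.Agent.K7.H53.MA.Gen
import Pool.Agent.Y60.DC.Tb

/-!
# The roots of `P - T R` for generic `P` and `T`
-/

set_option autoImplicit false
set_option linter.unusedSectionVars false
set_option linter.unusedVariables false

open Polynomial Finset IntermediateField

namespace Pool.Agent.K7.H53.MA

open Pool.Agent.Y60.DC (tb_of_alg tb_alg exists_iso)

/-- The three facts which need characteristic different from two in the proofs. -/
structure Nice (J U : Type) [Fintype J] [DecidableEq J] [Field U] : Prop where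
  det : ∀ x : J → U, Function.Injective x → (Mm x).det = 0
  partner : ∀ (x ξ : J → U) (T : U), Function.Injective x → Function.Injective ξ → Gd x → Gd ξ →
    Pp ξ = Pp x - C T * rs x → ∃ μ : U, rs x = C μ * rs ξ
  sgn : ∀ (x ξ : J → U) (T : U), T ≠ 0 → Function.Injective x → Function.Injective ξ → Gd x →
    Pp ξ = Pp x - C T * rs x → ∀ (σ : U ≃+* U) (a b : Equiv.Perm J), σ T = T →
    (∀ i, σ (x i) = x (a i)) → (∀ i, σ (ξ i) = ξ (b i)) → Equiv.Perm.sign a = Equiv.Perm.sign b

theorem nice_of_two {J U : Type} [Fintype J] [DecidableEq J] [Field U] (h2 : (2 : U) ≠ 0)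
    (hodd : Odd (Fintype.card J)) : Nice J U where
  det x _ := det_zero h2 hodd x
  partner x ξ T hx hξ hg hg' hf := partner h2 hodd hx hξ hg hg' hf
  sgn x ξ T hT hx hξ hg hf σ a b _ ha hb :=
    sgn_eq h2 hodd hT hx hξ hg hf (σ : U →+* U) a b ha hb

section basic

variable {J U : Type} [Fintype J] [DecidableEq J] [Field U]

/-- A monic polynomial of degree `|J|` over an algebraically closed field. -/
theorem exists_roots [IsAlgClosed U] (f : U[X]) (hf : f.Monic)
    (hd : f.natDegree = Fintype.card J) : ∃ ξ : J → U, Pp ξ = f := by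
  have hs : f.Splits := IsAlgClosed.splits f
  have hcard : Multiset.card f.roots = Fintype.card J := by
    rw [← hd]
    exact (splits_iff_card_roots.1 hs)
  let l := f.roots.toList
  have hl : l.length = Fintype.card J := by
    rw [← hcard]
    exact Multiset.length_toList _
  let e : J ≃ Fin l.length := (Fintype.equivFin J).trans (finCongr hl.symm)
  refine ⟨fun j => l[(e j).1], ?_⟩
  have h1 : f = (f.roots.map fun a => X - C a).prod := by
    conv_lhs => rw [hs.eq_prod_roots]
    rw [hf.leadingCoeff, C_1, one_mul]
  have h2 : (f.roots.map fun a => (X - C a : U[X])).prod = (l.map fun a => (X - C a : U[X])).prod := by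
    conv_lhs => rw [← Multiset.coe_toList f.roots]
    rw [Multiset.map_coe, Multiset.prod_coe]
  refine Eq.trans ?_ (h1.trans h2).symm
  rw [← Fin.prod_univ_fun_getElem l (fun a => (X - C a : U[X]))]
  exact Equiv.prod_comp e fun k => (X - C (l[k.1]) : U[X])

theorem map_fix_of_Pp {x : J → U} (hx : Function.Injective x) (τ : U →+* U)
    (h : (Pp x).map τ = Pp x) : ∃ a : Equiv.Perm J, ∀ i, τ (x i) = x (a i) := by
  have h1 : ∀ i, ∃ j, τ (x i) = x j := by
    intro i
    have h2 : (Pp x).eval (τ (x i)) = 0 := by
      rw [← h, eval_map, eval₂_at_apply]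
      have h3 : (Pp x).eval (x i) = 0 := by
        rw [eval_Pp]
        exact Finset.prod_eq_zero (mem_univ i) (sub_self _)
      rw [h3, map_zero]
    rw [eval_Pp] at h2
    obtain ⟨j, -, hj⟩ := Finset.prod_eq_zero_iff.1 h2
    exact ⟨j, sub_eq_zero.1 hj⟩
  choose a ha using h1
  have hinj : Function.Injective a := fun i k hik => by
    apply hx
    apply τ.injective
    rw [ha, ha, hik]
  exact ⟨Equiv.ofBijective a (Finite.injective_iff_bijective.1 hinj), ha⟩

theorem natDegree_f (x : J → U) [Nonempty J] (T : U) :
    (Pp x - C T * rs x).Monic ∧ (Pp x - C T * rs x).natDegree = Fintype.card J := by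
  have h1 : (C T * rs x).degree < (Pp x).degree := by
    rw [degree_eq_natDegree (monic_Pp x).ne_zero, natDegree_Pp]
    have h2 : C T * rs x = Rr x fun j => T * (Mm x).adjugate j j := by
      rw [Rr_smul]
      rfl
    rw [h2]
    exact degree_Rr_lt x _
  refine ⟨(monic_Pp x).sub_of_left h1, ?_⟩
  rw [← natDegree_Pp x]
  exact natDegree_eq_of_degree_eq (degree_sub_eq_left_of_degree_lt h1)

end basic

section alg

variable {k U J : Type} [Fintype J] [DecidableEq J] [Field k] [Field U] [Algebra k U]

/-- The roots are algebraic over a field which contains the coefficients. -/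
theorem alg_of_coeff (E : IntermediateField k U) (y : J → U)
    (h : ∀ n < Fintype.card J, (Pp y).coeff n ∈ E) (i : J) : IsAlgebraic E (y i) := by
  have h1 : Pp y ∈ lifts (algebraMap E U) := by
    rw [lifts_iff_coeff_lifts]
    intro n
    rcases lt_trichotomy n (Fintype.card J) with hn | hn | hn
    · exact ⟨⟨_, h n hn⟩, rfl⟩
    · have h2 : (Pp y).coeff n = 1 := by
        have h3 := (monic_Pp y).coeff_natDegree
        rwa [natDegree_Pp, ← hn] at h3
      rw [h2]
      exact ⟨1, map_one _⟩
    · have h2 : (Pp y).coeff n = 0 := coeff_eq_zero_of_natDegree_lt (by rwa [natDegree_Pp])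
      rw [h2]
      exact ⟨0, map_zero _⟩
  obtain ⟨q, hq⟩ := h1
  refine ⟨q, ?_, ?_⟩
  · intro h2
    rw [h2] at hq
    exact (monic_Pp y).ne_zero (by rw [← hq]; exact Polynomial.map_zero _)
  · have h2 : (Pp y).eval (y i) = 0 := by
      rw [eval_Pp]
      exact Finset.prod_eq_zero (mem_univ i) (sub_self _)
    rw [← hq] at h2
    rw [aeval_def, ← eval_map]
    exact h2

/-- Values of polynomials with coefficients in `E` at algebraic elements. -/
theorem alg_eval (E : IntermediateField k U) (q : E[X]) (y : U) (hy : IsAlgebraic E y) :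
    IsAlgebraic E ((q.map (algebraMap E U)).eval y) := by
  have h1 : y ∈ algebraicClosure E U := mem_algebraicClosure_iff.2 hy
  have h2 : (q.map (algebraMap E U)).eval y ∈ algebraicClosure E U := by
    rw [eval_map, ← aeval_def]
    have h3 := IntermediateField.aeval_coe (algebraicClosure E U) (⟨y, h1⟩ : algebraicClosure E U) q
    rw [h3]
    exact SetLike.coe_mem _
  exact mem_algebraicClosure_iff.1 h2

end alg

end Pool.Agent.K7.H53.MA
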