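import Pool.Agent.K7.H53.MA.Core

/-!
# Genericity of the roots of `P - T R`
-/

set_option autoImplicit false
set_option linter.unusedSectionVars false
set_option linter.unusedVariables false

open scoped IntermediateField.algebraAdjoinAdjoin
open Polynomial Finset IntermediateField

namespace Pool.Agent.K7.H53.MA

open Pool.Agent.Y60.DC (tb_of_alg tb_alg exists_iso)

variable {k U J : Type} [Fintype J] [DecidableEq J] [Field k] [Field U] [Algebra k U]

theorem alg_mem (E : IntermediateField k U) (y : U) (h : y ∈ E) : IsAlgebraic E y :=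
  ⟨X - C ⟨y, h⟩, X_sub_C_ne_zero _, by
    rw [map_sub, aeval_X, aeval_C]
    exact sub_self _⟩

/-- the elements `x` in the field which they generate -/
noncomputable def xE (x : J → U) (j : J) : adjoin k (Set.range x) :=
  ⟨x j, subset_adjoin k _ ⟨j, rfl⟩⟩

theorem Pp_lift (x : J → U) :
    (Pp (xE (k := k) x)).map (algebraMap (adjoin k (Set.range x)) U) = Pp x := by
  rw [map_Pp]
  rfl

theorem rs_lift (x : J → U) :
    (rs (xE (k := k) x)).map (algebraMap (adjoin k (Set.range x)) U) = rs x := by
  rw [rs_map]
  rfl

/-- `T` is transcendental over the field generated by the `x_i`. -/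
theorem tr_T {z : Option J → U} (hz : AlgebraicIndependent k z) :
    Transcendental (adjoin k (Set.range fun j => z (some j))) (z none) := by
  have h1 : AlgebraicIndependent k (fun o : Option J => o.elim (z none) fun j => z (some j)) := by
    have h2 : (fun o : Option J => o.elim (z none) fun j => z (some j)) = z := by
      ext o
      cases o <;> rfl
    rw [h2]
    exact hz
  have h3 := (AlgebraicIndependent.option_iff.1 h1).2
  intro h
  exact h3 ((IsFractionRing.isAlgebraic_iff (Algebra.adjoin k (Set.range fun j => z (some j)))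
    (adjoin k (Set.range fun j => z (some j))) U).2 h)

/-- A root which is algebraic over `k(x)` makes `T` algebraic. -/
theorem T_alg {x ξ : J → U} {T : U} (hx : Function.Injective x) (hg : Gd x)
    (hf : Pp ξ = Pp x - C T * rs x) (i : J)
    (h : IsAlgebraic (adjoin k (Set.range x)) (ξ i)) :
    IsAlgebraic (adjoin k (Set.range x)) T := by
  have h1 := rs_eval_ne hx hg hf i
  have h2 : T = (Pp x).eval (ξ i) / (rs x).eval (ξ i) := by
    rw [eq_div_iff h1]
    have h3 := congrArg (eval (ξ i)) hf
    rw [eval_sub, eval_mul, eval_C] at h3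
    have h0 : (Pp ξ).eval (ξ i) = 0 := by
      rw [eval_Pp]
      exact Finset.prod_eq_zero (mem_univ i) (sub_self _)
    rw [h0] at h3
    linear_combination h3
  rw [h2, div_eq_mul_inv]
  refine IsAlgebraic.mul ?_ (IsAlgebraic.inv ?_)
  · rw [← Pp_lift (k := k) x]
    exact alg_eval _ _ _ h
  · rw [← rs_lift (k := k) x]
    exact alg_eval _ _ _ h

section z

variable {z : Option J → U} {ξ : J → U}

/-- The roots are distinct. -/
theorem xi_inj (hodd : Odd (Fintype.card J)) (hN : Nice J U) (hz : AlgebraicIndependent k z)
    (hf : Pp ξ = Pp (fun j => z (some j)) - C (z none) * rs fun j => z (some j)) :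
    Function.Injective ξ := by
  have hx : AlgebraicIndependent k fun j => z (some j) := hz.comp _ (Option.some_injective _)
  have hg := gd_of_indep hodd _ hx
  have hne : Nonempty J := Fintype.card_pos_iff.1 hodd.pos
  obtain ⟨i0⟩ := id hne
  intro i j hij
  by_contra hne
  have h1 := sq_eval hodd hx.injective hg (hN.det _ hx.injective) hf i0 i
  have h2 : (Pj ξ i).eval (ξ i) = 0 := by
    unfold Pj
    rw [eval_prod]
    apply Finset.prod_eq_zero (mem_erase.2 ⟨Ne.symm hne, mem_univ j⟩)
    rw [eval_sub, eval_X, eval_C, hij, sub_self]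
  rw [h2, zero_mul, mul_zero] at h1
  have h3 := pow_eq_zero_iff (two_ne_zero) |>.1 h1
  refine tr_T hz (T_alg hx.injective hg hf i ?_)
  let w' : J → adjoin k (Set.range fun j => z (some j)) := fun j =>
    (Mm (xE (k := k) fun j => z (some j))).adjugate j i0
  refine ⟨Rr (xE (k := k) fun j => z (some j)) w', ?_, ?_⟩
  · intro h4
    have h5 := eval_Rr (xE (k := k) fun j => z (some j)) w' i0
    rw [h4, eval_zero] at h5
    have hx' : Function.Injective (xE (k := k) fun j => z (some j)) := fun a b hab =>
      hx.injective (congrArg Subtype.val hab)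
    have hg' : Gd (xE (k := k) fun j => z (some j)) :=
      Gd.of_map (algebraMap (adjoin k (Set.range fun j => z (some j))) U) hg
    exact mul_ne_zero (hg' i0) (eval_Pj_self hx' i0) h5.symm
  · rw [aeval_def, ← eval_map, map_Rr]
    have h6 : (fun j => algebraMap (adjoin k (Set.range fun j => z (some j))) U (w' j)) =
        fun j => (Mm fun j => z (some j)).adjugate j i0 := by
      ext j
      exact map_adj (algebraMap (adjoin k (Set.range fun j => z (some j))) U) _ j i0
    rw [h6]
    exact h3

/-- The coefficients of `P`, and `T`. -/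
noncomputable def cz (z : Option J → U) : Option J → U
  | none => z none
  | some j => (Pp fun j => z (some j)).coeff (Fintype.equivFin J j)

/-- The coefficients of `P` and `T` are a transcendence basis. -/
theorem coef_tb (hz : IsTranscendenceBasis k z) : IsTranscendenceBasis k (cz z) := by
  refine tb_of_alg hz _ fun o => ?_
  rcases o with _ | j
  · have h : z none ∈ adjoin k (Set.range (cz z)) := subset_adjoin k _ ⟨none, rfl⟩
    exact alg_mem _ _ h
  · refine alg_of_coeff _ (fun j => z (some j)) (fun n hn => ?_) j
    refine subset_adjoin k _ ⟨some ((Fintype.equivFin J).symm ⟨n, hn⟩), ?_⟩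
    change (Pp fun j => z (some j)).coeff (Fintype.equivFin J _) = _
    rw [Equiv.apply_symm_apply]

/-- The coefficients of `P - T R` are algebraically independent. -/
theorem coef_f (hz : IsTranscendenceBasis k z)
    (hf : Pp ξ = Pp (fun j => z (some j)) - C (z none) * rs fun j => z (some j)) :
    AlgebraicIndependent k fun j => (Pp ξ).coeff (Fintype.equivFin J j) := by
  have hp : AlgebraicIndependent k fun j =>
      (Pp fun j => z (some j)).coeff (Fintype.equivFin J j) := by
    have h1 : AlgebraicIndependent k (cz z ∘ some) :=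
      (coef_tb hz).1.comp some (Option.some_injective _)
    have h2 : (cz z ∘ some) = fun j => (Pp fun j => z (some j)).coeff (Fintype.equivFin J j) :=
      funext fun j => rfl
    rwa [h2] at h1
  rw [algebraicIndependent_iff] at hp ⊢
  intro G hG
  let E := adjoin k (Set.range fun j => z (some j))
  let x' : J → E := xE (k := k) fun j => z (some j)
  let e := Fintype.equivFin J
  let p' : J → E := fun j => (Pp x').coeff (e j)
  let r' : J → E := fun j => (rs x').coeff (e j)
  have hp' : ∀ j, (p' j : U) = (Pp fun j => z (some j)).coeff (e j) := fun j => by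
    rw [← Pp_lift (k := k), coeff_map]
    rfl
  have hr' : ∀ j, (r' j : U) = (rs fun j => z (some j)).coeff (e j) := fun j => by
    rw [← rs_lift (k := k), coeff_map]
    rfl
  let g : E[X] := MvPolynomial.aeval (fun j => (C (p' j) - X * C (r' j) : E[X])) G
  have hg1 : aeval (z none) g = 0 := by
    have h1 : ((aeval (z none) : E[X] →ₐ[E] U).restrictScalars k).comp
        (MvPolynomial.aeval (fun j => (C (p' j) - X * C (r' j) : E[X]))) =
        MvPolynomial.aeval fun j => (Pp ξ).coeff (e j) := by
      apply MvPolynomial.algHom_ext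
      intro j
      rw [AlgHom.comp_apply, MvPolynomial.aeval_X, MvPolynomial.aeval_X]
      change aeval (z none) (C (p' j) - X * C (r' j) : E[X]) = _
      rw [map_sub, map_mul, aeval_C, aeval_C, aeval_X, hf, coeff_sub, coeff_C_mul]
      change (p' j : U) - z none * (r' j : U) = _
      rw [hp', hr']
    have h2 := AlgHom.congr_fun h1 G
    rw [hG] at h2
    exact h2
  have hg0 : g = 0 := by
    by_contra h
    exact tr_T hz.1 ⟨g, h, hg1⟩
  apply hp
  have h1 : (IntermediateField.val E).comp (((aeval (0 : E) : E[X] →ₐ[E] E).restrictScalars k).comp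
      (MvPolynomial.aeval (fun j => (C (p' j) - X * C (r' j) : E[X])))) =
      MvPolynomial.aeval fun j => (Pp fun j => z (some j)).coeff (e j) := by
    apply MvPolynomial.algHom_ext
    intro j
    rw [AlgHom.comp_apply, AlgHom.comp_apply, MvPolynomial.aeval_X, MvPolynomial.aeval_X]
    change ((aeval (0 : E) (C (p' j) - X * C (r' j) : E[X]) : E) : U) = _
    rw [map_sub, map_mul, aeval_C, aeval_C, aeval_X, zero_mul, sub_zero]
    exact hp' j
  have h2 := AlgHom.congr_fun h1 G
  rw [← h2]
  change ((aeval (0 : E) g : E) : U) = 0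
  rw [hg0, map_zero]
  rfl

/-- The roots are algebraically independent. -/
theorem xi_indep (hz : IsTranscendenceBasis k z)
    (hf : Pp ξ = Pp (fun j => z (some j)) - C (z none) * rs fun j => z (some j)) :
    AlgebraicIndependent k ξ := by
  have hc := coef_f hz hf
  let V := adjoin k (Set.range ξ)
  let ξ' : J → V := xE (k := k) ξ
  let f' : J → V := fun j => (Pp ξ').coeff (Fintype.equivFin J j)
  have hf' : AlgebraicIndependent k f' := by
    refine AlgebraicIndependent.of_comp (IntermediateField.val V) ?_
    have h1 : (IntermediateField.val V) ∘ f' = fun j => (Pp ξ).coeff (Fintype.equivFin J j) := by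
      ext j
      change ((Pp ξ').coeff (Fintype.equivFin J j) : U) = _
      rw [← Pp_lift (k := k) ξ, coeff_map]
      rfl
    rw [h1]
    exact hc
  have htop : ∀ v : V, v ∈ adjoin k (Set.range ξ') := by
    rintro ⟨v, hv⟩
    have h2 : ∀ u (hu : u ∈ adjoin k (Set.range ξ)), (⟨u, hu⟩ : V) ∈ adjoin k (Set.range ξ') := by
      intro u hu
      refine adjoin_induction (F := k) (s := Set.range ξ)
        (p := fun u hu => (⟨u, hu⟩ : V) ∈ adjoin k (Set.range ξ')) ?_ ?_ ?_ ?_ ?_ hu
      · rintro _ ⟨j, rfl⟩
        exact subset_adjoin k _ ⟨j, rfl⟩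
      · intro c
        exact (adjoin k (Set.range ξ')).algebraMap_mem c
      · intro a b ha hb h1 h2
        exact add_mem h1 h2
      · intro a ha h1
        exact inv_mem h1
      · intro a b ha hb h1 h2
        exact mul_mem h1 h2
    exact h2 v hv
  have halg : Algebra.IsAlgebraic (Algebra.adjoin k (Set.range ξ')) V := by
    refine ⟨fun v => ?_⟩
    refine (IsFractionRing.isAlgebraic_iff (Algebra.adjoin k (Set.range ξ'))
      (adjoin k (Set.range ξ')) V).2 ?_
    exact isAlgebraic_algebraMap (⟨v, htop v⟩ : adjoin k (Set.range ξ'))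
  have hb : IsTranscendenceBasis k ξ' :=
    Algebra.IsAlgebraic.isTranscendenceBasis_of_le_trdeg_of_finite k ξ' hf'.cardinalMk_le_trdeg
  have h3 := hb.1.map' (f := IntermediateField.val V) Subtype.val_injective
  exact h3

end z

end Pool.Agent.K7.H53.MA
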