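import Pool.Agent.K7.H53.MA.Core2

/-!
# All even permutations of the roots of `P - T R` come from automorphisms over `k(x, T)`
-/

set_option autoImplicit false
set_option linter.unusedSectionVars false
set_option linter.unusedVariables false

open scoped IntermediateField.algebraAdjoinAdjoin
open Polynomial Finset IntermediateField

namespace Pool.Agent.K7.H53.MA

open Pool.Agent.Y60.DC (tb_of_alg tb_alg exists_iso)

variable {k U J : Type} [Fintype J] [DecidableEq J] [Field k] [Field U] [Algebra k U]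

theorem coeff_Pp_mem (E : IntermediateField k U) (x : J → U) (hx : ∀ j, x j ∈ E) (n : ℕ) :
    (Pp x).coeff n ∈ E := by
  have h1 : (Pp fun j => (⟨x j, hx j⟩ : E)).map (algebraMap E U) = Pp x := by
    rw [map_Pp]
    rfl
  rw [← h1, coeff_map]
  exact SetLike.coe_mem _

theorem coeff_rs_mem (E : IntermediateField k U) (x : J → U) (hx : ∀ j, x j ∈ E) (n : ℕ) :
    (rs x).coeff n ∈ E := by
  have h1 : (rs fun j => (⟨x j, hx j⟩ : E)).map (algebraMap E U) = rs x := by
    rw [rs_map]
    rfl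
  rw [← h1, coeff_map]
  exact SetLike.coe_mem _

theorem coeff_rs_alg (E : IntermediateField k U) (x : J → U) (hx : ∀ j, IsAlgebraic E (x j))
    (n : ℕ) : IsAlgebraic E ((rs x).coeff n) := by
  have h1 := coeff_rs_mem (algebraicClosure E U) x (fun j => mem_algebraicClosure_iff.2 (hx j)) n
  exact mem_algebraicClosure_iff.1 h1

theorem tb_perm {ι : Type} [Finite ι] {y : ι → U} (hy : IsTranscendenceBasis k y)
    (e : Equiv.Perm ι) : IsTranscendenceBasis k fun i => y (e i) := by
  refine tb_of_alg hy _ fun i => alg_mem _ _ ?_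
  exact subset_adjoin k _ ⟨e.symm i, by simp⟩

theorem aps (g : Equiv.Perm J) (i : J) : g (g⁻¹ i) = i := g.apply_symm_apply i

/-- the roots and a parameter -/
noncomputable def zz (ξ : J → U) (s : U) : Option J → U
  | none => s
  | some j => ξ j

section main

variable {z : Option J → U} {ξ : J → U}

/-- The roots and `T'` are a transcendence basis. -/
theorem zz_tb (hodd : Odd (Fintype.card J)) (hz : IsTranscendenceBasis k z)
    (hf : Pp ξ = Pp (fun j => z (some j)) - C (z none) * rs fun j => z (some j))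
    (μ : U) (hμ : (rs fun j => z (some j)) = C μ * rs ξ) :
    IsTranscendenceBasis k (zz ξ (-(z none * μ))) := by
  have hx : AlgebraicIndependent k fun j => z (some j) := hz.1.comp _ (Option.some_injective _)
  have hg := gd_of_indep hodd _ hx
  have hne : Nonempty J := Fintype.card_pos_iff.1 hodd.pos
  let E := adjoin k (Set.range (zz ξ (-(z none * μ))))
  have hξE : ∀ j, ξ j ∈ E := fun j => subset_adjoin k _ ⟨some j, rfl⟩
  have hsE : -(z none * μ) ∈ E := subset_adjoin k _ ⟨none, rfl⟩
  have hP : Pp (fun j => z (some j)) = Pp ξ - C (-(z none * μ)) * rs ξ := by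
    rw [hf, hμ]
    simp only [C_neg, C_mul]
    ring
  have hxE : ∀ j, IsAlgebraic E (z (some j)) := by
    intro j
    refine alg_of_coeff E (fun j => z (some j)) (fun n _ => ?_) j
    rw [hP, coeff_sub, coeff_C_mul]
    exact sub_mem (coeff_Pp_mem E ξ hξE n) (mul_mem hsE (coeff_rs_mem E ξ hξE n))
  refine tb_of_alg hz _ fun o => ?_
  rcases o with _ | j
  · have h1 : (rs fun j => z (some j)) ≠ 0 := rs_ne hx.injective hg
    obtain ⟨n, hn⟩ : ∃ n, (rs fun j => z (some j)).coeff n ≠ 0 := by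
      by_contra h
      push Not at h
      exact h1 (Polynomial.ext h)
    have h2 : (rs fun j => z (some j)).coeff n = μ * (rs ξ).coeff n := by
      conv_lhs => rw [hμ, coeff_C_mul]
    have h3 : z none = -(-(z none * μ)) * (rs ξ).coeff n *
        ((rs fun j => z (some j)).coeff n)⁻¹ := by
      rw [eq_mul_inv_iff_mul_eq₀ hn, h2]
      ring
    have key : IsAlgebraic E (-(-(z none * μ)) * (rs ξ).coeff n *
        ((rs fun j => z (some j)).coeff n)⁻¹) := by
      refine IsAlgebraic.mul (IsAlgebraic.mul ?_ ?_) (IsAlgebraic.inv ?_)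
      · exact alg_mem _ _ (neg_mem hsE)
      · exact alg_mem _ _ (coeff_rs_mem E ξ hξE n)
      · exact coeff_rs_alg E _ hxE n
    rwa [← h3] at key
  · exact hxE j

/-- All permutations of the roots come from automorphisms which preserve `P` and `T`. -/
theorem exists_tau [IsAlgClosed U] (hodd : Odd (Fintype.card J)) (hN : Nice J U)
    (hz : IsTranscendenceBasis k z)
    (hf : Pp ξ = Pp (fun j => z (some j)) - C (z none) * rs fun j => z (some j))
    (g : Equiv.Perm J) : ∃ τ : U ≃ₐ[k] U, (∀ i, τ (ξ i) = ξ (g i)) ∧ τ (z none) = z none ∧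
      ∃ a : Equiv.Perm J, ∀ i, τ (z (some i)) = z (some (a i)) := by
  have hx : AlgebraicIndependent k fun j => z (some j) := hz.1.comp _ (Option.some_injective _)
  have hg := gd_of_indep hodd _ hx
  have hξ := xi_indep hz hf
  have hne : Nonempty J := Fintype.card_pos_iff.1 hodd.pos
  obtain ⟨μ, hμ⟩ := hN.partner _ ξ (z none) hx.injective hξ.injective hg
    (gd_of_indep hodd _ hξ) hf
  have hz' := zz_tb hodd hz hf μ hμ
  obtain ⟨τ, hτ⟩ := exists_iso k U U (Option J) hz' (tb_perm hz' (Equiv.optionCongr g))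
  have h1 : ∀ i, τ (ξ i) = ξ (g i) := fun i => hτ (some i)
  have h2 : τ (-(z none * μ)) = -(z none * μ) := hτ none
  have hP : Pp (fun j => z (some j)) = Pp ξ - C (-(z none * μ)) * rs ξ := by
    rw [hf, hμ]
    simp only [C_neg, C_mul]
    ring
  have h3 : (Pp (fun j => z (some j))).map (τ : U →+* U) = Pp (fun j => z (some j)) := by
    rw [hP, Polynomial.map_sub, Polynomial.map_mul, map_C, map_Pp, rs_map]
    have h4 : (fun i => (τ : U →+* U) (ξ i)) = fun i => ξ (g i) := funext h1
    have h5 : (τ : U →+* U) (-(z none * μ)) = -(z none * μ) := h2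
    rw [h4, h5, Pp_perm, rs_perm]
  obtain ⟨a, ha⟩ := map_fix_of_Pp hx.injective _ h3
  have ha' : ∀ i, τ (z (some i)) = z (some (a i)) := ha
  refine ⟨τ, h1, ?_, a, ha'⟩
  have h6 : (rs fun j => z (some j)).map (τ : U →+* U) = rs fun j => z (some j) := by
    rw [rs_map]
    have h4 : (fun i => (τ : U →+* U) (z (some i))) = fun i => z (some (a i)) := funext ha'
    rw [h4]
    exact rs_perm (fun j => z (some j)) a
  have h7 : C (z none) * (rs fun j => z (some j)) = Pp (fun j => z (some j)) - Pp ξ := by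
    rw [hf]
    ring
  have h8 := congrArg (Polynomial.map (τ : U →+* U)) h7
  rw [Polynomial.map_mul, Polynomial.map_sub, h3, h6, map_C, map_Pp] at h8
  have h4 : (fun i => (τ : U →+* U) (ξ i)) = fun i => ξ (g i) := funext h1
  rw [h4, Pp_perm, ← h7] at h8
  have h9 := mul_right_cancel₀ (rs_ne hx.injective hg) h8
  exact C_injective h9

/-- Transitivity. -/
theorem exists_trans [IsAlgClosed U] (hodd : Odd (Fintype.card J)) (hN : Nice J U)
    (hz : IsTranscendenceBasis k z)
    (hf : Pp ξ = Pp (fun j => z (some j)) - C (z none) * rs fun j => z (some j))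
    (i j : J) : ∃ σ : U ≃ₐ[k] U, (∀ l, σ (z (some l)) = z (some l)) ∧ σ (z none) = z none ∧
      σ (ξ i) = ξ j := by
  have hx : AlgebraicIndependent k fun j => z (some j) := hz.1.comp _ (Option.some_injective _)
  have hg := gd_of_indep hodd _ hx
  have hT : ∀ i, z none = (Pp fun j => z (some j)).eval (ξ i) /
      (rs fun j => z (some j)).eval (ξ i) := by
    intro i
    have h1 := rs_eval_ne hx.injective hg hf i
    rw [eq_div_iff h1]
    have h3 := congrArg (eval (ξ i)) hf
    rw [eval_sub, eval_mul, eval_C] at h3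
    have h0 : (Pp ξ).eval (ξ i) = 0 := by
      rw [eval_Pp]
      exact Finset.prod_eq_zero (mem_univ i) (sub_self _)
    rw [h0] at h3
    linear_combination h3
  have hb : ∀ i, IsTranscendenceBasis k (zz (fun j => z (some j)) (ξ i)) := by
    intro i
    let E := adjoin k (Set.range (zz (fun j => z (some j)) (ξ i)))
    have hxE : ∀ j, z (some j) ∈ E := fun j => subset_adjoin k _ ⟨some j, rfl⟩
    have hξE : ξ i ∈ E := subset_adjoin k _ ⟨none, rfl⟩
    have hev : ∀ F : U[X], (∀ n, F.coeff n ∈ E) → F.eval (ξ i) ∈ E := by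
      intro F hF
      rw [eval_eq_sum_range]
      exact sum_mem fun n _ => mul_mem (hF n) (pow_mem hξE n)
    refine tb_of_alg hz _ fun o => alg_mem _ _ ?_
    rcases o with _ | j
    · rw [hT i]
      exact div_mem (hev _ (coeff_Pp_mem E _ hxE)) (hev _ (coeff_rs_mem E _ hxE))
    · exact hxE j
  obtain ⟨σ, hσ⟩ := exists_iso k U U (Option J) (hb i) (hb j)
  have h1 : ∀ l, σ (z (some l)) = z (some l) := fun l => hσ (some l)
  have h2 : σ (ξ i) = ξ j := hσ none
  refine ⟨σ, h1, ?_, h2⟩
  have h4 : (fun l => (σ : U →+* U) (z (some l))) = fun l => z (some l) := funext h1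
  have h5 : ∀ F : U[X], F.map (σ : U →+* U) = F → σ (F.eval (ξ i)) = F.eval (ξ j) := by
    intro F hF
    have h6 : (F.map (σ : U →+* U)).eval (σ (ξ i)) = σ (F.eval (ξ i)) := by
      rw [eval_map]
      exact eval₂_at_apply _ _
    rw [hF, h2] at h6
    exact h6.symm
  rw [hT i, map_div₀, h5, h5, ← hT j, ← hT i]
  · rw [rs_map, h4]
  · rw [map_Pp, h4]

/-- The group of the permutations of the roots given by the automorphisms over `k(x, T)`. -/
def Hg (k : Type) [Field k] [Algebra k U] (z : Option J → U) (ξ : J → U) :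
    Subgroup (Equiv.Perm J) where
  carrier := {b | ∃ σ : U ≃ₐ[k] U, (∀ l, σ (z (some l)) = z (some l)) ∧ σ (z none) = z none ∧
    ∀ i, σ (ξ i) = ξ (b i)}
  mul_mem' := by
    rintro a b ⟨σ, h1, h2, h3⟩ ⟨τ, h4, h5, h6⟩
    refine ⟨σ * τ, fun l => ?_, ?_, fun i => ?_⟩
    · rw [AlgEquiv.mul_apply, h4, h1]
    · rw [AlgEquiv.mul_apply, h5, h2]
    · rw [AlgEquiv.mul_apply, h6, h3]
      rfl
  one_mem' := ⟨1, fun _ => rfl, rfl, fun _ => rfl⟩
  inv_mem' := by
    rintro a ⟨σ, h1, h2, h3⟩
    refine ⟨σ⁻¹, fun l => ?_, ?_, fun i => ?_⟩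
    · rw [AlgEquiv.aut_inv, AlgEquiv.symm_apply_eq, h1]
    · rw [AlgEquiv.aut_inv, AlgEquiv.symm_apply_eq, h2]
    · rw [AlgEquiv.aut_inv, AlgEquiv.symm_apply_eq, h3, aps]

theorem Hg_normal [IsAlgClosed U] (hodd : Odd (Fintype.card J)) (hN : Nice J U)
    (hz : IsTranscendenceBasis k z)
    (hf : Pp ξ = Pp (fun j => z (some j)) - C (z none) * rs fun j => z (some j)) :
    (Hg k z ξ).Normal := by
  refine ⟨?_⟩
  rintro b ⟨σ, h1, h2, h3⟩ g
  obtain ⟨τ, h4, h5, a, h6⟩ := exists_tau hodd hN hz hf g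
  have h4' : ∀ i, τ⁻¹ (ξ i) = ξ (g⁻¹ i) := fun i => by
    rw [AlgEquiv.aut_inv, AlgEquiv.symm_apply_eq, h4, aps]
  have h5' : τ⁻¹ (z none) = z none := by
    rw [AlgEquiv.aut_inv, AlgEquiv.symm_apply_eq, h5]
  have h6' : ∀ i, τ⁻¹ (z (some i)) = z (some (a⁻¹ i)) := fun i => by
    rw [AlgEquiv.aut_inv, AlgEquiv.symm_apply_eq, h6, aps]
  refine ⟨τ * σ * τ⁻¹, fun l => ?_, ?_, fun i => ?_⟩
  · rw [AlgEquiv.mul_apply, AlgEquiv.mul_apply, h6', h1, h6, aps]
  · rw [AlgEquiv.mul_apply, AlgEquiv.mul_apply, h5', h2, h5]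
  · rw [AlgEquiv.mul_apply, AlgEquiv.mul_apply, h4', h3, h4]
    rfl

/-- **The geometric group contains the alternating group.** -/
theorem alt_le [IsAlgClosed U] (hodd : Odd (Fintype.card J)) (h5 : 5 ≤ Fintype.card J)
    (hN : Nice J U) (hz : IsTranscendenceBasis k z)
    (hf : Pp ξ = Pp (fun j => z (some j)) - C (z none) * rs fun j => z (some j)) :
    alternatingGroup J ≤ Hg k z ξ := by
  have := Hg_normal hodd hN hz hf
  refine Equiv.Perm.alternatingGroup_le_of_normal (by rwa [Nat.card_eq_fintype_card]) ?_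
  have hx : AlgebraicIndependent k fun j => z (some j) := hz.1.comp _ (Option.some_injective _)
  have hξ := xi_indep hz hf
  obtain ⟨i, j, hij⟩ := Fintype.one_lt_card_iff.1 (show 1 < Fintype.card J by omega)
  obtain ⟨σ, h1, h2, h3⟩ := exists_trans hodd hN hz hf i j
  have h4 : (Pp ξ).map (σ : U →+* U) = Pp ξ := by
    rw [hf, Polynomial.map_sub, Polynomial.map_mul, map_C, map_Pp, rs_map]
    have h6 : (fun l => (σ : U →+* U) (z (some l))) = fun l => z (some l) := funext h1
    have h7 : (σ : U →+* U) (z none) = z none := h2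
    rw [h6, h7]
  obtain ⟨b, hb⟩ := map_fix_of_Pp hξ.injective _ h4
  have hbH : b ∈ Hg k z ξ := ⟨σ, h1, h2, hb⟩
  rw [Subgroup.nontrivial_iff_exists_ne_one]
  refine ⟨b, hbH, fun h => hij ?_⟩
  apply hξ.injective
  have h8 : σ (ξ i) = ξ (b i) := hb i
  rw [h, Equiv.Perm.one_apply] at h8
  rw [← h8, h3]

end main

end Pool.Agent.K7.H53.MA
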