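import Pool.Agent.Y60.DC.Frame
import Pool.Agent.Y60.DC.Rat

/-!
# The criterion for split embedding problems with alternating kernel
-/

set_option autoImplicit false
set_option linter.unusedSectionVars false
set_option linter.unusedVariables false

open Equiv

namespace Pool.Agent.K7.H53.MA

open Pool.Agent.H391R2.T4 (RegSol)
open Pool.Agent.Y60.DC (frame)

theorem frame_alt (K L : Type) [Field K] [Infinite K] [Field L] [Algebra K L]
    [FiniteDimensional K L] [IsGalois K L] (n : ℕ)
    (β : (L ≃ₐ[K] L) →* MulAut (alternatingGroup (Fin n)))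
    (β' : (L ≃ₐ[K] L) →* Perm (Fin n))
    (hβ : ∀ γ g, ((β γ g : alternatingGroup (Fin n)) : Perm (Fin n)) = β' γ * g * (β' γ)⁻¹)
    (U : Type) [Field U] [IsAlgClosed U] [Algebra K U] [Algebra L U] [IsScalarTower K L U]
    (ι : Type) [Finite ι] (x : ι → U) (hx : IsTranscendenceBasis K x)
    (η : Fin n → U) (hη : Function.Injective η)
    (h1 : ∀ (σ : U ≃ₐ[K] U) (γ : L ≃ₐ[K] L),
      (∀ l, σ (algebraMap L U l) = algebraMap L U (γ l)) → (∀ i, σ (x i) = x i) →
      ∃ s : Perm (Fin n), (∀ i, σ (η i) = η (s i)) ∧ Perm.sign s = Perm.sign (β' γ))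
    (h2 : ∀ s ∈ alternatingGroup (Fin n), ∃ σ : U ≃ₐ[K] U, (∀ z, IsAlgebraic K z → σ z = z) ∧
      (∀ i, σ (x i) = x i) ∧ ∀ i, σ (η i) = η (s i)) :
    RegSol K L (alternatingGroup (Fin n) ⋊[β] (L ≃ₐ[K] L)) SemidirectProduct.rightHom := by
  classical
  let G := alternatingGroup (Fin n) ⋊[β] (L ≃ₐ[K] L)
  have hfinG : Finite G := Finite.of_equiv _ SemidirectProduct.equivProd.symm
  let bL := Module.finBasis K L
  refine frame K L G SemidirectProduct.rightHom SemidirectProduct.rightHom_surjective U ι x hx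
    (fun σ g => (∀ l, σ (algebraMap L U l) = algebraMap L U (g.right l)) ∧
      ∀ i, σ (η i) = η ((g.left : Perm (Fin n)) (β' g.right i))) ?_ ?_ ?_ ?_
    (Set.range η ∪ Set.range fun i => algebraMap L U (bL i)) ?_ ?_ ?_
  · -- existence
    intro σ hσ
    obtain ⟨γ, hγ⟩ : ∃ γ : L ≃ₐ[K] L, ∀ l, σ (algebraMap L U l) = algebraMap L U (γ l) :=
      ⟨σ.restrictNormal L, fun l => (AlgEquiv.restrictNormal_commutes σ L l).symm⟩
    obtain ⟨s, hs1, hs2⟩ := h1 σ γ hγ hσ
    have hmem : s * (β' γ)⁻¹ ∈ alternatingGroup (Fin n) := by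
      rw [Perm.mem_alternatingGroup, Perm.sign_mul, Perm.sign_inv, hs2]
      exact Int.units_mul_self _
    refine ⟨⟨⟨s * (β' γ)⁻¹, hmem⟩, γ⟩, hγ, fun i => ?_⟩
    rw [hs1]
    congr 1
    change s i = s ((β' γ)⁻¹ (β' γ i))
    congr 1
    exact ((β' γ).symm_apply_apply i).symm
  · -- uniqueness
    rintro σ g h ⟨h3, h4⟩ ⟨h5, h6⟩
    have h7 : g.right = h.right := by
      ext l
      apply (algebraMap L U).injective
      rw [← h3, ← h5]
    refine SemidirectProduct.ext (Subtype.ext (Equiv.ext fun i => ?_)) h7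
    have h8 := (h4 ((β' g.right).symm i)).symm.trans (h6 ((β' g.right).symm i))
    rw [← h7, Equiv.apply_symm_apply] at h8
    exact hη h8
  · -- products
    rintro σ σ' g h ⟨h3, h4⟩ ⟨h5, h6⟩
    refine ⟨fun l => ?_, fun i => ?_⟩
    · rw [AlgEquiv.mul_apply, h5, h3]
      rfl
    · rw [AlgEquiv.mul_apply, h6, h4]
      congr 1
      have h7 : ((g * h).left : Perm (Fin n)) =
          g.left * (β' g.right * h.left * (β' g.right)⁻¹) := by
        rw [SemidirectProduct.mul_left, Subgroup.coe_mul, hβ]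
      rw [h7, SemidirectProduct.mul_right, map_mul]
      simp only [Perm.mul_apply]
      congr 3
      exact ((β' g.right).symm_apply_apply _).symm
  · intro σ g h l
    exact h.1 l
  · exact (Set.finite_range η).union (Set.finite_range _)
  · -- finiteness
    intro σ hσ hS
    refine ⟨fun l => ?_, fun i => ?_⟩
    · change σ (algebraMap L U l) = algebraMap L U l
      rw [← bL.sum_repr l, map_sum, map_sum]
      refine Finset.sum_congr rfl fun i _ => ?_
      rw [Algebra.smul_def, map_mul, map_mul, hS _ (Or.inr ⟨i, rfl⟩),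
        ← IsScalarTower.algebraMap_apply K L U, AlgEquiv.commutes]
    · rw [hS _ (Or.inl ⟨i, rfl⟩), SemidirectProduct.one_left, SemidirectProduct.one_right, map_one]
      rfl
  · -- the kernel
    intro g hg
    have hgr : g.right = 1 := hg
    obtain ⟨σ, h3, h4, h5⟩ := h2 g.left g.left.2
    refine ⟨σ, h3, h4, fun l => ?_, fun i => ?_⟩
    · rw [hgr]
      exact h3 _ (Algebra.IsAlgebraic.isAlgebraic (R := K) l).algebraMap
    · rw [hgr, map_one, h5]
      rfl

end Pool.Agent.K7.H53.MA
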