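import Mathlib

/-!
# Mestre's identity
-/

set_option autoImplicit false
set_option linter.unusedSectionVars false
set_option linter.unusedVariables false

open Polynomial Finset

namespace Pool.Agent.K7.H53.MA

section ring

variable {J D : Type} [Fintype J] [DecidableEq J] [CommRing D]

/-- `∏ (X - x_i)` -/
noncomputable def Pp (x : J → D) : D[X] := ∏ i, (X - C (x i))

/-- the product without the factor `X - x_j` -/
noncomputable def Pj (x : J → D) (j : J) : D[X] := ∏ i ∈ univ.erase j, (X - C (x i))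

/-- the product without the factors `X - x_i`, `X - x_j` -/
noncomputable def Pij (x : J → D) (i j : J) : D[X] := ∏ k ∈ (univ.erase i).erase j, (X - C (x k))

/-- `∑ c_j ∏_{i ≠ j} (X - x_i)` -/
noncomputable def Rr (x c : J → D) : D[X] := ∑ j, C (c j) * Pj x j

theorem Pp_eq (x : J → D) (j : J) : Pp x = (X - C (x j)) * Pj x j :=
  (Finset.mul_prod_erase _ _ (mem_univ j)).symm

theorem Pj_eq (x : J → D) {i j : J} (h : i ≠ j) : Pj x i = (X - C (x j)) * Pij x i j :=
  (Finset.mul_prod_erase _ _ (mem_erase.2 ⟨h.symm, mem_univ j⟩)).symm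

theorem Pij_comm (x : J → D) (i j : J) : Pij x i j = Pij x j i := by
  unfold Pij
  rw [Finset.erase_right_comm]

theorem deriv_Pp (x : J → D) (j : J) :
    derivative (Pp x) * Pj x j - Pp x * derivative (Pj x j) = Pj x j ^ 2 := by
  rw [Pp_eq x j, derivative_mul, derivative_sub, derivative_X, derivative_C]
  ring

theorem Pj_mul (x : J → D) {i j : J} (h : i ≠ j) (a : D) (ha : a * (x i - x j) = 1) :
    Pj x i * Pj x j = Pp x * (C a * (Pj x i - Pj x j)) := by
  have h1 := Pj_eq x h
  have h2 := Pj_eq x h.symm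
  rw [← Pij_comm x i j] at h2
  have h3 : C a * (Pj x i - Pj x j) = Pij x i j := by
    rw [h1, h2]
    have h4 : (C a * ((X - C (x j)) * Pij x i j - (X - C (x i)) * Pij x i j) : D[X]) =
        C (a * (x i - x j)) * Pij x i j := by
      rw [C_mul, C_sub]
      ring
    rw [h4, ha, C_1, one_mul]
  rw [h3, Pp_eq x i, h2]
  ring

theorem eval_Pj_ne (x : J → D) {i j : J} (h : i ≠ j) : (Pj x j).eval (x i) = 0 := by
  unfold Pj
  rw [eval_prod]
  apply Finset.prod_eq_zero (mem_erase.2 ⟨h, mem_univ i⟩)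
  simp

theorem eval_Rr (x c : J → D) (i : J) : (Rr x c).eval (x i) = c i * (Pj x i).eval (x i) := by
  unfold Rr
  rw [eval_finsetSum, Finset.sum_eq_single i]
  · simp
  · intro j _ hj
    rw [eval_mul, eval_Pj_ne x hj.symm, mul_zero]
  · intro h
    exact absurd (mem_univ i) h

theorem eval_deriv_Pp (x : J → D) (i : J) :
    (derivative (Pp x)).eval (x i) = (Pj x i).eval (x i) := by
  rw [Pp_eq x i, derivative_mul, derivative_sub, derivative_X, derivative_C]
  simp

/-- **The Wronskian.** -/
theorem wronsk (x w : J → D) (A : Matrix J J D) (hA : ∀ i j, i ≠ j → A i j * (x i - x j) = 1)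
    (h0 : ∀ i, A i i = 0) (hs : ∀ i j, A i j = - A j i) :
    (Rr x w) ^ 2 = derivative (Pp x) * Rr x (fun i => w i ^ 2) -
      Pp x * derivative (Rr x fun i => w i ^ 2) +
      2 * Pp x * Rr x (fun i => w i * (A.mulVec w) i) := by
  have h1 : derivative (Pp x) * Rr x (fun i => w i ^ 2) -
      Pp x * derivative (Rr x fun i => w i ^ 2) = ∑ j, C (w j ^ 2) * Pj x j ^ 2 := by
    unfold Rr
    rw [derivative_sum, Finset.mul_sum, Finset.mul_sum, ← Finset.sum_sub_distrib]
    refine Finset.sum_congr rfl fun j _ => ?_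
    rw [← deriv_Pp x j, derivative_C_mul]
    ring
  have h2 : (Rr x w) ^ 2 = ∑ i, ∑ j, C (w i) * C (w j) * (Pj x i * Pj x j) := by
    unfold Rr
    rw [pow_two, Finset.sum_mul_sum]
    refine Finset.sum_congr rfl fun i _ => Finset.sum_congr rfl fun j _ => ?_
    ring
  have h3 : ∀ i j, C (w i) * C (w j) * (Pj x i * Pj x j) =
      (if j = i then C (w i ^ 2) * Pj x i ^ 2 else 0) +
      Pp x * (C (w i * (A i j * w j)) * Pj x i) + Pp x * (C (w j * (A j i * w i)) * Pj x j) := by
    intro i j
    split_ifs with h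
    · subst h
      rw [h0, zero_mul, mul_zero, C_0, zero_mul, mul_zero, add_zero, add_zero, C_pow]
      ring
    · rw [Pj_mul x (Ne.symm h) (A i j) (hA i j (Ne.symm h)), hs j i]
      simp only [C_mul, C_neg]
      ring
  have h4 : ∀ (Q : J → J → D[X]), ∑ i, ∑ j, (Q i j) = ∑ j, ∑ i, Q i j := fun Q => Finset.sum_comm
  have h5 : Rr x (fun i => w i * (A.mulVec w) i) =
      ∑ i, ∑ j, C (w i * (A i j * w j)) * Pj x i := by
    unfold Rr
    refine Finset.sum_congr rfl fun i _ => ?_
    rw [← Finset.sum_mul, ← map_sum, ← Finset.mul_sum]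
    rfl
  rw [h2]
  simp only [h3, Finset.sum_add_distrib]
  rw [h1, h5]
  have h6 : ∑ i, ∑ j, Pp x * (C (w j * (A j i * w i)) * Pj x j) =
      Pp x * ∑ i, ∑ j, C (w i * (A i j * w j)) * Pj x i := by
    rw [h4, Finset.mul_sum]
    refine Finset.sum_congr rfl fun j _ => ?_
    rw [Finset.mul_sum]
  have h7 : ∑ i, ∑ j, Pp x * (C (w i * (A i j * w j)) * Pj x i) =
      Pp x * ∑ i, ∑ j, C (w i * (A i j * w j)) * Pj x i := by
    rw [Finset.mul_sum]
    refine Finset.sum_congr rfl fun j _ => ?_
    rw [Finset.mul_sum]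
  rw [h6, h7]
  simp only [Finset.sum_ite_eq', Finset.mem_univ, if_true]
  ring

theorem monic_Pp (x : J → D) : (Pp x).Monic := monic_prod_of_monic _ _ fun i _ => monic_X_sub_C _

theorem natDegree_Pp [Nontrivial D] (x : J → D) : (Pp x).natDegree = Fintype.card J := by
  unfold Pp
  rw [natDegree_prod_of_monic _ _ fun i _ => monic_X_sub_C _]
  simp [Finset.card_univ]

theorem degree_Pj_lt [Nontrivial D] (x : J → D) (j : J) :
    (Pj x j).degree < (Fintype.card J : ℕ) := by
  have h1 : (Pj x j).natDegree = Fintype.card J - 1 := by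
    unfold Pj
    rw [natDegree_prod_of_monic _ _ fun i _ => monic_X_sub_C _]
    simp [Finset.card_univ, Finset.card_erase_of_mem]
  have h2 : 0 < Fintype.card J := Fintype.card_pos_iff.2 ⟨j⟩
  refine lt_of_le_of_lt degree_le_natDegree ?_
  rw [h1]
  exact_mod_cast Nat.sub_lt h2 one_pos

theorem degree_Rr_lt [Nontrivial D] [Nonempty J] (x c : J → D) :
    (Rr x c).degree < (Fintype.card J : ℕ) := by
  unfold Rr
  refine lt_of_le_of_lt (degree_sum_le _ _) ?_
  rw [Finset.sup_lt_iff]
  · intro j _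
    refine lt_of_le_of_lt ?_ (degree_Pj_lt x j)
    refine (degree_mul_le _ _).trans ?_
    calc (C (c j)).degree + (Pj x j).degree ≤ 0 + (Pj x j).degree := by
          gcongr
          exact degree_C_le
      _ = _ := zero_add _
  · exact WithBot.bot_lt_coe _

theorem map_Pp {E : Type} [CommRing E] (f : D →+* E) (x : J → D) :
    (Pp x).map f = Pp (fun i => f (x i)) := by
  unfold Pp
  rw [Polynomial.map_prod]
  simp

theorem map_Pj {E : Type} [CommRing E] (f : D →+* E) (x : J → D) (j : J) :
    (Pj x j).map f = Pj (fun i => f (x i)) j := by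
  unfold Pj
  rw [Polynomial.map_prod]
  simp

theorem map_Rr {E : Type} [CommRing E] (f : D →+* E) (x c : J → D) :
    (Rr x c).map f = Rr (fun i => f (x i)) (fun i => f (c i)) := by
  unfold Rr
  rw [Polynomial.map_sum]
  refine Finset.sum_congr rfl fun j _ => ?_
  rw [Polynomial.map_mul, map_C, map_Pj]

theorem Pp_perm (x : J → D) (a : Equiv.Perm J) : Pp (fun i => x (a i)) = Pp x :=
  Equiv.prod_comp a fun i => (X - C (x i))

theorem Pj_perm (x : J → D) (a : Equiv.Perm J) (j : J) :
    Pj (fun i => x (a i)) j = Pj x (a j) := by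
  unfold Pj
  refine Finset.prod_bij (fun i _ => a i) ?_ ?_ ?_ ?_
  · intro i hi
    exact mem_erase.2 ⟨fun h => (mem_erase.1 hi).1 (a.injective h), mem_univ _⟩
  · intro i _ k _ h
    exact a.injective h
  · intro i hi
    exact ⟨a.symm i, mem_erase.2 ⟨fun h => (mem_erase.1 hi).1 (by rw [← h, a.apply_symm_apply]),
      mem_univ _⟩, a.apply_symm_apply i⟩
  · intro i _
    rfl

theorem Rr_perm (x c : J → D) (a : Equiv.Perm J) :
    Rr (fun i => x (a i)) (fun i => c (a i)) = Rr x c := by
  unfold Rr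
  simp only [Pj_perm]
  exact Equiv.sum_comp a fun j => C (c j) * Pj x j

theorem Rr_smul (x c : J → D) (l : D) : Rr x (fun i => l * c i) = C l * Rr x c := by
  unfold Rr
  rw [Finset.mul_sum]
  refine Finset.sum_congr rfl fun j _ => ?_
  rw [C_mul, mul_assoc]

end ring

section domain

variable {J D : Type} [Fintype J] [DecidableEq J] [CommRing D] [IsDomain D]

theorem eval_Pj_self {x : J → D} (hx : Function.Injective x) (i : J) :
    (Pj x i).eval (x i) ≠ 0 := by
  unfold Pj
  rw [eval_prod]
  refine Finset.prod_ne_zero_iff.2 fun k hk => ?_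
  rw [eval_sub, eval_X, eval_C, sub_ne_zero]
  exact fun h => (mem_erase.1 hk).1 (hx h).symm

/-- Lagrange interpolation. -/
theorem interp [Nonempty J] {x : J → D} (hx : Function.Injective x) (F : D[X])
    (hF : F.degree < (Fintype.card J : ℕ)) (v : J → D)
    (h : ∀ j, F.eval (x j) = v j * (Pj x j).eval (x j)) : F = Rr x v := by
  classical
  have h1 : F - Rr x v = 0 := by
    refine Polynomial.eq_zero_of_degree_lt_of_eval_finset_eq_zero (univ.image x) ?_ ?_
    · rw [Finset.card_image_of_injective _ hx, Finset.card_univ]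
      exact lt_of_le_of_lt (degree_sub_le _ _) (max_lt hF (degree_Rr_lt x v))
    · intro z hz
      obtain ⟨j, -, rfl⟩ := Finset.mem_image.1 hz
      rw [eval_sub, h j, eval_Rr, sub_self]
  exact sub_eq_zero.1 h1

end domain

end Pool.Agent.K7.H53.MA
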