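import Pool.Agent.K7.H53.MA.Id

/-!
# The matrix `1 / (x_i - x_j)`
-/

set_option autoImplicit false
set_option linter.unusedSectionVars false
set_option linter.unusedVariables false

open Polynomial Finset

namespace Pool.Agent.K7.H53.MA

section field

variable {J D : Type} [Fintype J] [DecidableEq J] [Field D]

/-- the matrix `1 / (x_i - x_j)` with zero diagonal -/
noncomputable def Mm (x : J → D) : Matrix J J D := Matrix.of fun i j => (x i - x j)⁻¹

theorem Mm_mul {x : J → D} (hx : Function.Injective x) (i j : J) (h : i ≠ j) :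
    Mm x i j * (x i - x j) = 1 :=
  inv_mul_cancel₀ (sub_ne_zero.2 fun e => h (hx e))

theorem Mm_diag (x : J → D) (i : J) : Mm x i i = 0 := by
  change (x i - x i)⁻¹ = 0
  rw [sub_self, inv_zero]

theorem Mm_skew (x : J → D) (i j : J) : Mm x i j = - Mm x j i := by
  change (x i - x j)⁻¹ = - (x j - x i)⁻¹
  rw [← neg_sub, inv_neg]

theorem Mm_transpose (x : J → D) : (Mm x).transpose = - Mm x := by
  ext i j
  rw [Matrix.transpose_apply, Matrix.neg_apply, Mm_skew]

theorem adj_symm (hodd : Odd (Fintype.card J)) (x : J → D) (i j : J) :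
    (Mm x).adjugate i j = (Mm x).adjugate j i := by
  have h1 : (Mm x).adjugate.transpose = (Mm x).adjugate := by
    rw [Matrix.adjugate_transpose, Mm_transpose]
    have h2 : - Mm x = (-1 : D) • Mm x := by rw [neg_smul, one_smul]
    rw [h2, Matrix.adjugate_smul]
    obtain ⟨k, hk⟩ := hodd
    rw [hk, Nat.add_sub_cancel, pow_mul]
    simp
  have h3 := congrFun (congrFun h1 j) i
  exact h3

theorem det_zero (h2 : (2 : D) ≠ 0) (hodd : Odd (Fintype.card J)) (x : J → D) :
    (Mm x).det = 0 := by
  have h1 : (Mm x).det = - (Mm x).det := by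
    conv_lhs => rw [← Matrix.det_transpose, Mm_transpose, Matrix.det_neg]
    rw [hodd.neg_one_pow, neg_one_mul]
  have h3 : 2 * (Mm x).det = 0 := by linear_combination h1
  exact (mul_eq_zero.1 h3).resolve_left h2

theorem mulVec_col {x : J → D} (hdet : (Mm x).det = 0) (i0 : J) :
    (Mm x).mulVec (fun j => (Mm x).adjugate j i0) = 0 := by
  have h1 := (Mm x).mul_adjugate
  rw [hdet, zero_smul] at h1
  ext i
  exact congrFun (congrFun h1 i) i0

theorem ker_unique {x : J → D} {i0 : J} (h0 : (Mm x).adjugate i0 i0 ≠ 0) (u : J → D)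
    (hu : (Mm x).mulVec u = 0) (hi : u i0 = 0) : u = 0 := by
  rw [Matrix.adjugate_apply] at h0
  refine Matrix.eq_zero_of_mulVec_eq_zero h0 ?_
  ext i
  by_cases h : i = i0
  · subst h
    change ((Mm x).updateRow i (Pi.single i 1)) i ⬝ᵥ u = 0
    rw [Matrix.updateRow_self, single_one_dotProduct]
    exact hi
  · change ((Mm x).updateRow i0 (Pi.single i0 1)) i ⬝ᵥ u = 0
    rw [Matrix.updateRow_ne h]
    exact congrFun hu i

theorem ker_eq {x : J → D} {i0 : J} (h0 : (Mm x).adjugate i0 i0 ≠ 0) (hdet : (Mm x).det = 0)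
    (u : J → D) (hu : (Mm x).mulVec u = 0) (j : J) :
    u j = u i0 / (Mm x).adjugate i0 i0 * (Mm x).adjugate j i0 := by
  have h1 : (u - (u i0 / (Mm x).adjugate i0 i0) • fun j => (Mm x).adjugate j i0) = 0 := by
    refine ker_unique h0 _ ?_ ?_
    · rw [Matrix.mulVec_sub, Matrix.mulVec_smul, hu, mulVec_col hdet, smul_zero, sub_zero]
    · simp only [Pi.sub_apply, Pi.smul_apply, smul_eq_mul]
      rw [div_mul_cancel₀ _ h0, sub_self]
  have h2 := congrFun h1 j
  simp only [Pi.sub_apply, Pi.smul_apply, smul_eq_mul, Pi.zero_apply] at h2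
  exact sub_eq_zero.1 h2

theorem rank_one (hodd : Odd (Fintype.card J)) {x : J → D} {i0 : J}
    (h0 : (Mm x).adjugate i0 i0 ≠ 0) (hdet : (Mm x).det = 0) (j k : J) :
    (Mm x).adjugate i0 i0 * (Mm x).adjugate j k =
      (Mm x).adjugate j i0 * (Mm x).adjugate k i0 := by
  have h1 := ker_eq h0 hdet (fun j => (Mm x).adjugate j k) (mulVec_col hdet k) j
  beta_reduce at h1
  rw [h1, adj_symm hodd x i0 k]
  field_simp

theorem map_Mm {E : Type} [Field E] (f : D →+* E) (x : J → D) :
    (Mm x).map f = Mm fun i => f (x i) := by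
  ext i j
  change f (x i - x j)⁻¹ = (f (x i) - f (x j))⁻¹
  rw [map_inv₀, map_sub]

theorem map_adj {E : Type} [Field E] (f : D →+* E) (x : J → D) (i j : J) :
    f ((Mm x).adjugate i j) = (Mm fun i => f (x i)).adjugate i j := by
  rw [← map_Mm]
  have h1 := RingHom.map_adjugate f (Mm x)
  exact congrFun (congrFun h1 i) j

theorem adj_perm (x : J → D) (a : Equiv.Perm J) (i j : J) :
    (Mm fun i => x (a i)).adjugate i j = (Mm x).adjugate (a i) (a j) := by
  have h1 : (Mm fun i => x (a i)) = (Mm x).submatrix a a := rfl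
  rw [h1, Matrix.adjugate_submatrix_equiv_self]
  rfl

/-- the partner of `∏ (X - x_i)` -/
noncomputable def rs (x : J → D) : D[X] := Rr x fun j => (Mm x).adjugate j j

theorem rs_perm (x : J → D) (a : Equiv.Perm J) : rs (fun i => x (a i)) = rs x := by
  unfold rs
  simp only [adj_perm]
  exact Rr_perm x (fun j => (Mm x).adjugate j j) a

theorem rs_map {E : Type} [Field E] (f : D →+* E) (x : J → D) :
    (rs x).map f = rs fun i => f (x i) := by
  unfold rs
  rw [map_Rr]
  simp only [map_adj]

/-- all diagonal elements of the adjugate are different from zero -/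
def Gd (x : J → D) : Prop := ∀ j, (Mm x).adjugate j j ≠ 0

theorem Gd.map {E : Type} [Field E] (f : D →+* E) {x : J → D} (h : Gd x) :
    Gd fun i => f (x i) := fun j => by
  rw [← map_adj]
  exact (map_ne_zero f).2 (h j)

theorem Gd.of_map {E : Type} [Field E] (f : D →+* E) {x : J → D} (h : Gd fun i => f (x i)) :
    Gd x := fun j => by
  have := h j
  rw [← map_adj] at this
  exact (map_ne_zero f).1 this

theorem col_ne (hodd : Odd (Fintype.card J)) {x : J → D} (hg : Gd x) (hdet : (Mm x).det = 0)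
    (i j : J) : (Mm x).adjugate i j ≠ 0 := by
  intro h
  have h1 := rank_one hodd (hg j) hdet i i
  rw [h] at h1
  have h2 : (Mm x).adjugate j j * (Mm x).adjugate i i = 0 := by rw [h1]; ring
  rcases mul_eq_zero.1 h2 with h3 | h3
  · exact hg j h3
  · exact hg i h3

theorem rs_eq (hodd : Odd (Fintype.card J)) {x : J → D} (hg : Gd x) (hdet : (Mm x).det = 0)
    (i0 : J) : C ((Mm x).adjugate i0 i0) * rs x = Rr x (fun j => (Mm x).adjugate j i0 ^ 2) := by
  unfold rs
  rw [← Rr_smul]
  congr 1
  ext j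
  rw [rank_one hodd (hg i0) hdet j j, pow_two]

/-- **The Wronskian of the partner.** -/
theorem wr_rs (hodd : Odd (Fintype.card J)) {x : J → D} (hx : Function.Injective x) (hg : Gd x)
    (hdet : (Mm x).det = 0) (i0 : J) :
    (Rr x fun j => (Mm x).adjugate j i0) ^ 2 =
      C ((Mm x).adjugate i0 i0) * (derivative (Pp x) * rs x - Pp x * derivative (rs x)) := by
  rw [wronsk x _ (Mm x) (Mm_mul hx) (Mm_diag x) (Mm_skew x)]
  have h1 : Rr x (fun i => (Mm x).adjugate i i0 *
      ((Mm x).mulVec (fun j => (Mm x).adjugate j i0)) i) = 0 := by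
    rw [mulVec_col hdet]
    simp [Rr]
  rw [h1, mul_zero, add_zero, ← rs_eq hodd hg hdet i0, derivative_C_mul]
  ring

end field

end Pool.Agent.K7.H53.MA
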