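import Pool.Agent.K7.H53.MA.Mat

/-!
# The roots of `P - T R`
-/

set_option autoImplicit false
set_option linter.unusedSectionVars false
set_option linter.unusedVariables false

open Polynomial Finset

namespace Pool.Agent.K7.H53.MA

section field

variable {J D : Type} [Fintype J] [DecidableEq J] [Field D]

theorem wr_shift (P R : D[X]) (T : D) :
    derivative (P - C T * R) * R - (P - C T * R) * derivative R =
      derivative P * R - P * derivative R := by
  rw [derivative_sub, derivative_C_mul]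
  ring

theorem rs_eval_x (x : J → D) (j : J) :
    (rs x).eval (x j) = (Mm x).adjugate j j * (Pj x j).eval (x j) := eval_Rr x _ j

theorem eval_Pp (x : J → D) (z : D) : (Pp x).eval z = ∏ i, (z - x i) := by
  unfold Pp
  rw [eval_prod]
  simp

theorem rs_eval_ne {x ξ : J → D} {T : D} (hx : Function.Injective x) (hg : Gd x)
    (hf : Pp ξ = Pp x - C T * rs x) (i : J) : (rs x).eval (ξ i) ≠ 0 := by
  intro h
  have h1 : (Pp ξ).eval (ξ i) = 0 := by
    rw [eval_Pp]
    exact Finset.prod_eq_zero (mem_univ i) (sub_self _)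
  rw [hf, eval_sub, eval_mul, h, mul_zero, sub_zero, eval_Pp] at h1
  obtain ⟨j, -, hj⟩ := Finset.prod_eq_zero_iff.1 h1
  have h2 : ξ i = x j := sub_eq_zero.1 hj
  rw [h2, rs_eval_x] at h
  exact mul_ne_zero (hg j) (eval_Pj_self hx j) h

theorem sq_eval (hodd : Odd (Fintype.card J)) {x ξ : J → D} {T : D} (hx : Function.Injective x)
    (hg : Gd x) (hdet : (Mm x).det = 0) (hf : Pp ξ = Pp x - C T * rs x) (i0 i : J) :
    ((Rr x fun j => (Mm x).adjugate j i0).eval (ξ i)) ^ 2 =
      (Mm x).adjugate i0 i0 * ((Pj ξ i).eval (ξ i) * (rs x).eval (ξ i)) := by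
  have h1 := congrArg (eval (ξ i)) (wr_rs hodd hx hg hdet i0)
  rw [← wr_shift (Pp x) (rs x) T, ← hf] at h1
  have h2 : (Pp ξ).eval (ξ i) = 0 := by
    rw [eval_Pp]
    exact Finset.prod_eq_zero (mem_univ i) (sub_self _)
  rw [eval_pow, eval_mul, eval_C, eval_sub, eval_mul, eval_mul, h2, zero_mul, sub_zero,
    eval_deriv_Pp] at h1
  exact h1

theorem rs_ne {x : J → D} (hx : Function.Injective x) (hg : Gd x) [Nonempty J] : rs x ≠ 0 := by
  intro h
  obtain ⟨j⟩ := ‹Nonempty J›
  have h1 := rs_eval_x x j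
  rw [h, eval_zero] at h1
  exact mul_ne_zero (hg j) (eval_Pj_self hx j) h1.symm

/-- **The partner of `P - T R` is `R`.** -/
theorem partner (h2 : (2 : D) ≠ 0) (hodd : Odd (Fintype.card J)) {x ξ : J → D} {T : D}
    (hx : Function.Injective x) (hξ : Function.Injective ξ) (hg : Gd x) (hg' : Gd ξ)
    (hf : Pp ξ = Pp x - C T * rs x) : ∃ μ : D, rs x = C μ * rs ξ := by
  have hne : Nonempty J := Fintype.card_pos_iff.1 hodd.pos
  obtain ⟨i0⟩ := id hne
  have hdet := det_zero h2 hodd x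
  have hdet' := det_zero h2 hodd ξ
  let S := Rr x fun j => (Mm x).adjugate j i0
  let v : J → D := fun j => S.eval (ξ j) / (Pj ξ j).eval (ξ j)
  have hv : ∀ j, S.eval (ξ j) = v j * (Pj ξ j).eval (ξ j) := fun j =>
    (div_mul_cancel₀ _ (eval_Pj_self hξ j)).symm
  have hS : S = Rr ξ v := interp hξ S (degree_Rr_lt x _) v hv
  have hR : C ((Mm x).adjugate i0 i0) * rs x = Rr ξ fun j => v j ^ 2 := by
    refine interp hξ _ ?_ _ fun j => ?_
    · rw [rs_eq hodd hg hdet i0]
      exact degree_Rr_lt x _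
    · have h3 := sq_eval hodd hx hg hdet hf i0 j
      have h4 := hv j
      change S.eval (ξ j) ^ 2 = _ at h3
      rw [h4] at h3
      have h5 := eval_Pj_self hξ j
      rw [eval_mul, eval_C]
      apply mul_left_cancel₀ h5
      linear_combination (-1 : D) * h3
  have hw := wronsk ξ v (Mm ξ) (Mm_mul hξ) (Mm_diag ξ) (Mm_skew ξ)
  rw [← hS, ← hR] at hw
  have hw2 := wr_rs hodd hx hg hdet i0
  rw [← wr_shift (Pp x) (rs x) T, ← hf] at hw2
  change S ^ 2 = _ at hw2
  rw [hw2, derivative_C_mul] at hw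
  have h3 : 2 * Pp ξ * Rr ξ (fun i => v i * ((Mm ξ).mulVec v) i) = 0 := by
    linear_combination -hw
  have h4 : Rr ξ (fun i => v i * ((Mm ξ).mulVec v) i) = 0 := by
    rcases mul_eq_zero.1 h3 with h | h
    · rcases mul_eq_zero.1 h with h | h
      · exfalso
        apply h2
        have := congrArg (eval 0) h
        simpa using this
      · exact absurd h (monic_Pp ξ).ne_zero
    · exact h
  have hvne : ∀ j, v j ≠ 0 := by
    intro j hj
    have h5 := sq_eval hodd hx hg hdet hf i0 j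
    change S.eval (ξ j) ^ 2 = _ at h5
    rw [hv j, hj, zero_mul, zero_pow two_ne_zero] at h5
    exact mul_ne_zero (hg i0) (mul_ne_zero (eval_Pj_self hξ j) (rs_eval_ne hx hg hf j)) h5.symm
  have hker : (Mm ξ).mulVec v = 0 := by
    ext i
    have h5 := eval_Rr ξ (fun i => v i * ((Mm ξ).mulVec v) i) i
    rw [h4, eval_zero] at h5
    have h6 := (mul_eq_zero.1 h5.symm).resolve_right (eval_Pj_self hξ i)
    exact (mul_eq_zero.1 h6).resolve_left (hvne i)
  let c := v i0 / (Mm ξ).adjugate i0 i0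
  have hc : ∀ j, v j ^ 2 = (c ^ 2 * (Mm ξ).adjugate i0 i0) * (Mm ξ).adjugate j j := by
    intro j
    rw [ker_eq (hg' i0) hdet' v hker j]
    have h5 := rank_one hodd (hg' i0) hdet' j j
    change (c * _) ^ 2 = _
    linear_combination (-c ^ 2) * h5
  have h7 : (Rr ξ fun j => v j ^ 2) = C (c ^ 2 * (Mm ξ).adjugate i0 i0) * rs ξ := by
    simp only [hc]
    exact Rr_smul ξ _ _
  refine ⟨(c ^ 2 * (Mm ξ).adjugate i0 i0) / (Mm x).adjugate i0 i0, ?_⟩
  have h8 : C ((Mm x).adjugate i0 i0) ≠ 0 := C_ne_zero.2 (hg i0)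
  apply mul_left_cancel₀ h8
  rw [hR, h7, ← mul_assoc, ← C_mul, mul_div_cancel₀ _ (hg i0)]

end field

end Pool.Agent.K7.H53.MA
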