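import Pool.Agent.K7.H53.MA.Root

/-!
# The signs of the two permutations are equal
-/

set_option autoImplicit false
set_option linter.unusedSectionVars false
set_option linter.unusedVariables false

open Polynomial Finset

namespace Pool.Agent.K7.H53.MA

section fin

variable {D : Type} [Field D]

theorem vd_sq {n : ℕ} (v : Fin n → D) :
    ∏ i, ∏ j ∈ univ.erase i, (v i - v j) =
      (-1) ^ (∑ i : Fin n, (Ioi i).card) * (Matrix.vandermonde v).det ^ 2 := by
  have h1 : ∀ i : Fin n, ∏ j ∈ univ.erase i, (v i - v j) =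
      (∏ j ∈ Ioi i, (v i - v j)) * ∏ j ∈ Iio i, (v i - v j) := by
    intro i
    rw [← Finset.prod_union]
    · congr 1
      ext j
      simp only [mem_erase, mem_univ, and_true, mem_union, mem_Ioi, mem_Iio]
      constructor
      · intro h
        rcases lt_or_gt_of_ne h with h | h
        · exact Or.inr h
        · exact Or.inl h
      · rintro (h | h)
        · exact ne_of_gt h
        · exact ne_of_lt h
    · rw [Finset.disjoint_left]
      intro j h1 h2
      exact lt_asymm (mem_Ioi.1 h1) (mem_Iio.1 h2)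
  simp only [h1, Finset.prod_mul_distrib]
  have h2 : ∏ i, ∏ j ∈ Ioi i, (v i - v j) =
      (-1) ^ (∑ i : Fin n, (Ioi i).card) * (Matrix.vandermonde v).det := by
    rw [Matrix.det_vandermonde, ← Finset.prod_pow_eq_pow_sum, ← Finset.prod_mul_distrib]
    refine Finset.prod_congr rfl fun i _ => ?_
    rw [← Finset.prod_const, ← Finset.prod_mul_distrib]
    refine Finset.prod_congr rfl fun j _ => ?_
    ring
  have h3 : ∏ i, ∏ j ∈ Iio i, (v i - v j) = (Matrix.vandermonde v).det := by
    rw [Matrix.det_vandermonde]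
    rw [Finset.prod_sigma', Finset.prod_sigma']
    refine Finset.prod_bij (fun p _ => ⟨p.2, p.1⟩) ?_ ?_ ?_ ?_
    · rintro ⟨i, j⟩ h
      simpa using h
    · rintro ⟨i, j⟩ _ ⟨k, l⟩ _ h
      simp only [Sigma.mk.injEq, heq_eq_eq] at h ⊢
      exact ⟨h.2, h.1⟩
    · rintro ⟨i, j⟩ h
      exact ⟨⟨j, i⟩, by simpa using h, rfl⟩
    · rintro ⟨i, j⟩ _
      rfl
  rw [h2, h3]
  ring

end fin

section field

variable {J D : Type} [Fintype J] [DecidableEq J] [Field D]

/-- the Vandermonde determinant -/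
noncomputable def Vd (x : J → D) : D :=
  (Matrix.vandermonde fun k => x ((Fintype.equivFin J).symm k)).det

theorem Vd_ne {x : J → D} (hx : Function.Injective x) : Vd x ≠ 0 :=
  Matrix.det_vandermonde_ne_zero_iff.2 (hx.comp (Fintype.equivFin J).symm.injective)

theorem Vd_perm (x : J → D) (a : Equiv.Perm J) :
    Vd (fun i => x (a i)) = ((Equiv.Perm.sign a : ℤ) : D) * Vd x := by
  let e := Fintype.equivFin J
  let a' : Equiv.Perm (Fin (Fintype.card J)) := (e.symm.trans a).trans e
  have h1 : (Matrix.vandermonde fun k => x (a (e.symm k))) =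
      (Matrix.vandermonde fun k => x (e.symm k)).submatrix a' id := by
    ext k l
    simp [Matrix.vandermonde, a']
  change (Matrix.vandermonde fun k => x (a (e.symm k))).det = _
  rw [h1, Matrix.det_permute]
  have h2 : Equiv.Perm.sign a' = Equiv.Perm.sign a := Equiv.Perm.sign_symm_trans_trans a e
  rw [h2]
  rfl

theorem Vd_map (f : D →+* D) (x : J → D) : f (Vd x) = Vd fun i => f (x i) := by
  unfold Vd
  rw [RingHom.map_det]
  congr 1
  ext i j
  simp [Matrix.vandermonde]

theorem F_eq (x : J → D) : ∏ j, (Pj x j).eval (x j) =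
    (-1) ^ (∑ i : Fin (Fintype.card J), (Ioi i).card) * Vd x ^ 2 := by
  unfold Vd
  rw [← vd_sq]
  let e := Fintype.equivFin J
  rw [← Equiv.prod_comp e.symm]
  refine Finset.prod_congr rfl fun k _ => ?_
  unfold Pj
  rw [eval_prod]
  symm
  refine Finset.prod_bij (fun l _ => e.symm l) ?_ ?_ ?_ ?_
  · intro l hl
    exact mem_erase.2 ⟨fun h => (mem_erase.1 hl).1 (e.symm.injective h), mem_univ _⟩
  · intro l _ m _ h
    exact e.symm.injective h
  · intro i hi
    exact ⟨e i, mem_erase.2 ⟨fun h => (mem_erase.1 hi).1 (by rw [← h, e.symm_apply_apply]),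
      mem_univ _⟩, e.symm_apply_apply i⟩
  · intro l _
    simp [e]

theorem prod_R (hodd : Odd (Fintype.card J)) {x ξ : J → D} {T : D} (hT : T ≠ 0)
    (hf : Pp ξ = Pp x - C T * rs x) :
    ∏ i, (rs x).eval (ξ i) = ∏ j, (rs x).eval (x j) := by
  have h1 : ∀ i, (Pp x).eval (ξ i) = T * (rs x).eval (ξ i) := by
    intro i
    have h := congrArg (eval (ξ i)) hf
    rw [eval_sub, eval_mul, eval_C] at h
    have h0 : (Pp ξ).eval (ξ i) = 0 := by
      rw [eval_Pp]
      exact Finset.prod_eq_zero (mem_univ i) (sub_self _)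
    rw [h0] at h
    linear_combination -h
  have h2 : ∀ j, (Pp ξ).eval (x j) = -(T * (rs x).eval (x j)) := by
    intro j
    rw [hf, eval_sub, eval_mul, eval_C]
    have h0 : (Pp x).eval (x j) = 0 := by
      rw [eval_Pp]
      exact Finset.prod_eq_zero (mem_univ j) (sub_self _)
    rw [h0, zero_sub]
  have h3 : ∏ i, (Pp x).eval (ξ i) = ∏ j, -((Pp ξ).eval (x j)) := by
    simp only [eval_Pp]
    rw [Finset.prod_comm]
    refine Finset.prod_congr rfl fun j _ => ?_
    have h4 : ∀ i, ξ i - x j = (-1) * (x j - ξ i) := fun i => by ring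
    simp only [h4]
    rw [Finset.prod_mul_distrib, Finset.prod_const, Finset.card_univ, hodd.neg_one_pow]
    ring
  simp only [h1, h2, neg_neg, Finset.prod_mul_distrib, Finset.prod_const, Finset.card_univ] at h3
  exact mul_left_cancel₀ (pow_ne_zero _ hT) h3

/-- **The signs are equal.** -/
theorem sgn_eq (h2 : (2 : D) ≠ 0) (hodd : Odd (Fintype.card J)) {x ξ : J → D} {T : D}
    (hT : T ≠ 0) (hx : Function.Injective x) (hξ : Function.Injective ξ) (hg : Gd x)
    (hf : Pp ξ = Pp x - C T * rs x) (σ : D →+* D) (a b : Equiv.Perm J)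
    (ha : ∀ i, σ (x i) = x (a i)) (hb : ∀ i, σ (ξ i) = ξ (b i)) :
    Equiv.Perm.sign a = Equiv.Perm.sign b := by
  have hne : Nonempty J := Fintype.card_pos_iff.1 hodd.pos
  obtain ⟨i0⟩ := id hne
  have hdet := det_zero h2 hodd x
  let w : J → D := fun j => (Mm x).adjugate j i0
  let S := Rr x w
  let l : D := (Mm x).adjugate (a i0) i0 / (Mm x).adjugate i0 i0
  have hw : ∀ j, w j ≠ 0 := fun j => col_ne hodd hg hdet j i0
  have hl0 : l ≠ 0 := div_ne_zero (hw (a i0)) (hg i0)
  have hl : ∀ j, (Mm x).adjugate j (a i0) = l * w j := by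
    intro j
    have h := rank_one hodd (hg i0) hdet j (a i0)
    change _ = (Mm x).adjugate (a i0) i0 / (Mm x).adjugate i0 i0 * (Mm x).adjugate j i0
    have h3 := hg i0
    field_simp
    linear_combination h
  have hσw : ∀ j, σ (w j) = l * w (a j) := by
    intro j
    change σ ((Mm x).adjugate j i0) = _
    rw [map_adj]
    simp only [ha]
    rw [adj_perm, hl]
  have hσS : S.map σ = C l * S := by
    change (Rr x w).map σ = _
    rw [map_Rr]
    simp only [ha, hσw]
    have h3 := Rr_perm x (fun j => l * w j) a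
    rw [h3, Rr_smul]
  have hSξ : ∀ i, σ (S.eval (ξ i)) = l * S.eval (ξ (b i)) := by
    intro i
    have h3 : σ (S.eval (ξ i)) = (S.map σ).eval (σ (ξ i)) := by
      rw [eval_map, eval₂_at_apply]
    rw [h3, hσS, hb, eval_mul, eval_C]
  have hprodS : σ (∏ i, S.eval (ξ i)) = l ^ Fintype.card J * ∏ i, S.eval (ξ i) := by
    rw [map_prod]
    simp only [hSξ]
    rw [Finset.prod_mul_distrib, Finset.prod_const, Finset.card_univ,
      Equiv.prod_comp b fun i => S.eval (ξ i)]
  have hprodw : σ (∏ i, w i) = l ^ Fintype.card J * ∏ i, w i := by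
    rw [map_prod]
    simp only [hσw]
    rw [Finset.prod_mul_distrib, Finset.prod_const, Finset.card_univ,
      Equiv.prod_comp a fun i => w i]
  have hVx : σ (Vd x) = ((Equiv.Perm.sign a : ℤ) : D) * Vd x := by
    rw [Vd_map]
    simp only [ha]
    exact Vd_perm x a
  have hVξ : σ (Vd ξ) = ((Equiv.Perm.sign b : ℤ) : D) * Vd ξ := by
    rw [Vd_map]
    simp only [hb]
    exact Vd_perm ξ b
  have hsq : (∏ i, S.eval (ξ i)) ^ 2 = ((∏ i, w i) * Vd ξ * Vd x) ^ 2 := by
    have h3 : ∏ i, (S.eval (ξ i)) ^ 2 =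
        ∏ i, ((Mm x).adjugate i0 i0 * ((Pj ξ i).eval (ξ i) * (rs x).eval (ξ i))) :=
      Finset.prod_congr rfl fun i _ => sq_eval hodd hx hg hdet hf i0 i
    have h4 : ∏ i, w i ^ 2 = ∏ i, ((Mm x).adjugate i0 i0 * (Mm x).adjugate i i) :=
      Finset.prod_congr rfl fun i _ => by
        rw [rank_one hodd (hg i0) hdet i i, pow_two]
    rw [Finset.prod_pow] at h3 h4
    rw [h3, Finset.prod_mul_distrib, Finset.prod_mul_distrib, prod_R hodd hT hf]
    simp only [rs_eval_x]
    rw [Finset.prod_mul_distrib, F_eq, F_eq, mul_pow, mul_pow, h4, Finset.prod_mul_distrib]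
    have h5 : ((-1 : D) ^ (∑ i : Fin (Fintype.card J), (Ioi i).card)) ^ 2 = 1 := by
      rw [← pow_mul, mul_comm, pow_mul]
      simp
    linear_combination (∏ _i : J, (Mm x).adjugate i0 i0) * (∏ i, (Mm x).adjugate i i) *
      Vd ξ ^ 2 * Vd x ^ 2 * h5
  have hVx0 := Vd_ne hx
  have hVξ0 := Vd_ne hξ
  have hw0 : ∏ i, w i ≠ 0 := Finset.prod_ne_zero_iff.2 fun i _ => hw i
  have key : ((Equiv.Perm.sign a : ℤ) : D) * ((Equiv.Perm.sign b : ℤ) : D) = 1 := by
    have h3 : ∀ ε : D, σ ε = ε → ε ≠ 0 → (∏ i, S.eval (ξ i)) = ε * ((∏ i, w i) * Vd ξ * Vd x) →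
        ((Equiv.Perm.sign a : ℤ) : D) * ((Equiv.Perm.sign b : ℤ) : D) = 1 := by
      intro ε hε hε0 h
      have h4 := congrArg σ h
      rw [hprodS, map_mul, map_mul, map_mul, hprodw, hVx, hVξ, hε, h] at h4
      have h5 : l ^ Fintype.card J * ε * (∏ i, w i) * Vd ξ * Vd x ≠ 0 := by
        refine mul_ne_zero (mul_ne_zero (mul_ne_zero (mul_ne_zero (pow_ne_zero _ hl0) hε0) hw0)
          hVξ0) hVx0
      apply mul_left_cancel₀ h5
      linear_combination -h4
    rcases sq_eq_sq_iff_eq_or_eq_neg.1 hsq with h | h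
    · exact h3 1 (map_one σ) one_ne_zero (by rw [one_mul]; exact h)
    · exact h3 (-1) (by rw [map_neg, map_one]) (neg_ne_zero.2 one_ne_zero)
        (by rw [neg_one_mul]; exact h)
  rcases Int.units_eq_one_or (Equiv.Perm.sign a) with h | h <;>
    rcases Int.units_eq_one_or (Equiv.Perm.sign b) with h' | h' <;> rw [h, h'] at key ⊢
  · exfalso
    simp at key
    apply h2
    linear_combination (-1 : D) * key
  · exfalso
    simp at key
    apply h2
    linear_combination (-1 : D) * key

end field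

end Pool.Agent.K7.H53.MA
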